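import Pool.Agent.Helper63.BD.Grp

/-!
# Row A3 of BD: free actions of a group of prime order, and Hilbert 90
-/

set_option autoImplicit false

namespace BDA

/-- A permutation of prime order without fixed points has a set which contains exactly one of
the `l` points `w, S⁻¹ w, ...` for every `w`. -/
theorem exists_transversal {α : Type*} (S : Equiv.Perm α) {l : ℕ} (hl : l.Prime) (hS : S ^ l = 1)
    (hfix : ∀ w, S w ≠ w) : ∃ R : Set α, ∀ w, ∃ i ∈ Finset.range l, (S ^ i).symm w ∈ R ∧
      ∀ j ∈ Finset.range l, (S ^ j).symm w ∈ R → j = i := by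
  classical
  let q := Equiv.Perm.SameCycle.setoid S
  let out : α → α := fun w => (Quotient.out (Quotient.mk q w) : α)
  have hout : ∀ w, S.SameCycle (out w) w := fun w => Quotient.mk_out (s := q) w
  have hout' : ∀ v w, S.SameCycle v w → out v = out w := by
    intro v w h
    have : Quotient.mk q v = Quotient.mk q w := Quotient.sound h
    simp only [out, this]
  refine ⟨{w | out w = w}, fun w => ?_⟩
  have hsc : ∀ i : ℕ, S.SameCycle ((S ^ i).symm w) w := fun i =>
    ⟨i, by rw [zpow_natCast]; exact Equiv.apply_symm_apply _ _⟩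
  -- powers of `S` modulo `l`
  have hlz : (l : ℤ) ≠ 0 := by exact_mod_cast hl.ne_zero
  have hSz : S ^ (l : ℤ) = 1 := by rw [zpow_natCast, hS]
  obtain ⟨i, hi⟩ := hout w
  have hmod : S ^ i = S ^ (i % l) := by
    conv_lhs => rw [← Int.emod_add_mul_ediv i l]
    rw [zpow_add, zpow_mul, hSz, one_zpow, mul_one]
  have h0 := Int.emod_nonneg i hlz
  have h1 := Int.emod_lt_of_pos i (by omega : (0 : ℤ) < l)
  set m := (i % l).toNat with hm
  have hm' : ((m : ℕ) : ℤ) = i % l := Int.toNat_of_nonneg h0
  have hw : (S ^ m) (out w) = w := by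
    rw [← zpow_natCast, hm', ← hmod]
    exact hi
  refine ⟨m, Finset.mem_range.2 (by omega), ?_, ?_⟩
  · rw [Set.mem_ofPred_eq, hout' _ _ (hsc m), Equiv.eq_symm_apply]
    exact hw
  · intro j hj hjR
    rw [Finset.mem_range] at hj
    rw [Set.mem_ofPred_eq, hout' _ _ (hsc j), Equiv.eq_symm_apply] at hjR
    by_contra hne
    -- a power of `S` prime to `l` fixes `out w`
    have key : ∀ a b : ℕ, a < l → b < l → a < b → (S ^ a) (out w) = w → (S ^ b) (out w) = w →
        False := by
      intro a b ha hb hab h2 h3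
      have h4 : Function.IsPeriodicPt S (b - a) (out w) := by
        rw [Function.IsPeriodicPt, Function.IsFixedPt, ← Equiv.Perm.coe_pow]
        apply (S ^ a).injective
        rw [h2, ← Equiv.Perm.mul_apply, ← pow_add, Nat.add_sub_cancel' hab.le]
        exact h3
      have h5 : Function.IsPeriodicPt S l (out w) := by
        rw [Function.IsPeriodicPt, Function.IsFixedPt, ← Equiv.Perm.coe_pow, hS]
        rfl
      have h6 := h4.gcd h5
      have h7 : Nat.gcd (b - a) l = 1 := by
        refine Nat.Coprime.symm ?_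
        rw [hl.coprime_iff_not_dvd]
        intro h8
        have := Nat.le_of_dvd (by omega) h8
        omega
      rw [h7] at h6
      exact hfix _ h6
    rcases lt_or_gt_of_ne hne with h | h
    · exact key j m hj (by omega) h hjR hw
    · exact key m j (by omega) hj h hw hjR

/-- An invariant function is a norm. -/
theorem exists_norm {α : Type*} (S : Equiv.Perm α) {l : ℕ} (hl : l.Prime) (hS : S ^ l = 1)
    (hfix : ∀ w, S w ≠ w) (D : α →₀ ℤ) (hD : ∀ w, D (S.symm w) = D w) :
    ∃ D' : α →₀ ℤ, ∀ w, D w = ∑ i ∈ Finset.range l, D' ((S ^ i).symm w) := by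
  classical
  obtain ⟨R, hR⟩ := exists_transversal S hl hS hfix
  refine ⟨D.filter (· ∈ R), fun w => ?_⟩
  obtain ⟨i, hi, hiR, huniq⟩ := hR w
  have hDi : ∀ i : ℕ, D ((S ^ i).symm w) = D w := by
    intro i
    induction i with
    | zero => rfl
    | succ i ih =>
      rw [← ih, ← hD ((S ^ i).symm w)]
      have : (S ^ (i + 1)).symm w = S.symm ((S ^ i).symm w) := by
        rw [Equiv.symm_apply_eq, pow_succ, Equiv.Perm.mul_apply, Equiv.apply_symm_apply,
          Equiv.apply_symm_apply]
      rw [this]
  rw [Finset.sum_eq_single i]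
  · rw [Finsupp.filter_apply_pos _ _ hiR, hDi]
  · intro j hj hji
    rw [Finsupp.filter_apply_neg]
    intro h
    exact hji (huniq j hj h)
  · intro h
    exact absurd hi h

/-- **Hilbert 90** for a cyclic group of automorphisms. -/
theorem hilbert90 {K E : Type*} [Field K] [Field E] [Algebra K E] (s : E ≃ₐ[K] E) {l : ℕ}
    (hl : 0 < l) (hs : s ^ l = 1) (hinj : ∀ i j : ℕ, i < l → j < l → s ^ i = s ^ j → i = j) (f : E)
    (hf : ∏ i ∈ Finset.range l, (s ^ i) f = 1) : ∃ h : E, h ≠ 0 ∧ f = s h / h := by
  classical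
  set c : ℕ → E := fun i => ∏ j ∈ Finset.range i, (s ^ j) f with hc
  have hc0 : c 0 = 1 := by simp [hc]
  have hcl : c l = 1 := hf
  have hf0 : f ≠ 0 := by
    rintro rfl
    have : ∏ i ∈ Finset.range l, (s ^ i) (0 : E) = 0 :=
      Finset.prod_eq_zero (Finset.mem_range.2 hl) (map_zero _)
    rw [this] at hf
    exact zero_ne_one hf
  have hcs : ∀ i, f * s (c i) = c (i + 1) := by
    intro i
    simp only [hc]
    rw [map_prod, Finset.prod_range_succ', mul_comm]
    congr 1
    refine Finset.prod_congr rfl fun j _ => ?_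
    rw [pow_succ']
    rfl
  -- independence of characters
  have hind := linearIndependent_monoidHom E E
  have hx : ∃ x : E, ∑ i ∈ Finset.range l, c i * (s ^ i) x ≠ 0 := by
    by_contra hall
    push Not at hall
    let φ : Fin l → (E →* E) := fun i => ((s ^ (i : ℕ) : E ≃ₐ[K] E) : E →* E)
    have hφ : Function.Injective φ := by
      intro i j hij
      apply Fin.ext
      apply hinj _ _ i.2 j.2
      ext x
      exact DFunLike.congr_fun hij x
    have h1 := hind.comp φ hφ
    rw [Fintype.linearIndependent_iff] at h1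
    have h2 := h1 (fun i => c i) (by
      funext x
      have h3 := hall x
      rw [Finset.sum_range] at h3
      simp only [Finset.sum_apply, Function.comp, Pi.smul_apply, smul_eq_mul, Pi.zero_apply]
      exact h3) ⟨0, hl⟩
    simp only [hc0] at h2
    exact one_ne_zero h2
  obtain ⟨x, hx⟩ := hx
  set b := ∑ i ∈ Finset.range l, c i * (s ^ i) x with hb
  have h1 : f * s b = b := by
    rw [hb, map_sum, Finset.mul_sum]
    have h2 : ∀ i ∈ Finset.range l, f * s (c i * (s ^ i) x) =
        (fun i => c i * (s ^ i) x) (i + 1) := by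
      intro i _
      rw [map_mul, ← mul_assoc, hcs]
      simp only
      rw [pow_succ']
      rfl
    rw [Finset.sum_congr rfl h2]
    have h3 := Finset.sum_range_succ' (fun i => c i * (s ^ i) x) l
    have h4 := Finset.sum_range_succ (fun i => c i * (s ^ i) x) l
    have h5 : c l * (s ^ l) x = c 0 * (s ^ 0) x := by
      rw [hcl, hc0, hs, pow_zero]
    rw [h4, h5] at h3
    exact (add_right_cancel h3).symm
  have hsb : s b ≠ 0 := by
    intro h
    apply hx
    rw [← h1, h, mul_zero]
  refine ⟨b⁻¹, inv_ne_zero hx, ?_⟩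
  rw [map_inv₀, eq_div_iff (inv_ne_zero hx)]
  field_simp
  exact h1

end BDA
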