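import Pool.Agent.Helper63.BD.Pic0
import Pool.Agent.Helper63.BD.Perm

/-!
# Row A3 of BD: automorphisms act on places, divisors and divisor classes

If an automorphism `s` of prime order `l` of a curve over a finite field fixes no place, and every
function with trivial divisor which is fixed by `s` is the norm of such a function, then there is
a contradiction.
-/

set_option autoImplicit false

namespace ZC

universe u

open PCl Polynomial BDA

variable {K E : Type u} [Field K] [Field E] [Algebra K E]

theorem aut_ne_zero (s : E ≃ₐ[K] E) {x : E} (hx : x ≠ 0) : s x ≠ 0 :=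
  (map_ne_zero_iff s s.injective).2 hx

/-- The image of a place under an automorphism. -/
def Place.act (s : E ≃ₐ[K] E) (w : Place K E) : Place K E where
  A := w.A.comap (s.symm : E ≃ₐ[K] E).toRingEquiv.toRingHom
  ne_top := by
    intro h
    apply w.ne_top
    rw [eq_top_iff]
    intro x _
    have h1 : s x ∈ w.A.comap (s.symm : E ≃ₐ[K] E).toRingEquiv.toRingHom := by
      rw [h]
      trivial
    rw [ValuationSubring.mem_comap] at h1
    simpa using h1
  mem a := by
    rw [ValuationSubring.mem_comap]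
    have : s.symm (algebraMap K E a) = algebraMap K E a := s.symm.commutes a
    change s.symm (algebraMap K E a) ∈ w.A
    rw [this]
    exact w.mem a

theorem Place.mem_act (s : E ≃ₐ[K] E) (w : Place K E) (x : E) :
    x ∈ (w.act s).A ↔ s.symm x ∈ w.A := Iff.rfl

theorem Place.act_act (s t : E ≃ₐ[K] E) (w : Place K E) : (w.act t).act s = w.act (s * t) := by
  apply Place.ext_A
  ext x
  rw [Place.mem_act, Place.mem_act, Place.mem_act]
  rfl

theorem Place.act_one (w : Place K E) : w.act (1 : E ≃ₐ[K] E) = w := by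
  apply Place.ext_A
  ext x
  rw [Place.mem_act]
  rfl

/-- The permutation of the places. -/
def actPerm (K E : Type u) [Field K] [Field E] [Algebra K E] :
    (E ≃ₐ[K] E) →* Equiv.Perm (Place K E) where
  toFun s :=
    { toFun := fun w => w.act s
      invFun := fun w => w.act s⁻¹
      left_inv := fun w => by
        simp only
        rw [Place.act_act, inv_mul_cancel, Place.act_one]
      right_inv := fun w => by
        simp only
        rw [Place.act_act, mul_inv_cancel, Place.act_one] }
  map_one' := Equiv.ext fun w => Place.act_one w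
  map_mul' s t := Equiv.ext fun w => (Place.act_act s t w).symm

theorem actPerm_apply (s : E ≃ₐ[K] E) (w : Place K E) : actPerm K E s w = w.act s := rfl

theorem actPerm_symm_apply (s : E ≃ₐ[K] E) (w : Place K E) :
    (actPerm K E s).symm w = w.act s⁻¹ := rfl

theorem Place.ord_act (hE : IsCurveField K E) (s : E ≃ₐ[K] E) (w : Place K E) {g : E}
    (hg : g ≠ 0) : (w.act s).ord (s g) = w.ord g := by
  have ho := w.isOrd_of hE.hRel
  have h0 : ∀ {x : E}, x ≠ 0 → s.symm x ≠ 0 := fun hx => aut_ne_zero s.symm hx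
  have h1 : IsOrd (w.act s).A fun x => w.ord (s.symm x) := by
    refine ⟨fun x y hx hy => ?_, fun x hx => ?_, ?_⟩
    · rw [map_mul, ho.mul _ _ (h0 hx) (h0 hy)]
    · rw [Place.mem_act]
      exact ho.nonneg _ (h0 hx)
    · obtain ⟨x, hx, hx1⟩ := ho.surj
      refine ⟨s x, aut_ne_zero s hx, ?_⟩
      rw [s.symm_apply_apply, hx1]
  rw [((w.act s).isOrd_of hE.hRel).unique h1 (aut_ne_zero s hg), s.symm_apply_apply]

theorem Place.deg_act (s : E ≃ₐ[K] E) (w : Place K E) : (w.act s).deg = w.deg := by
  let e : w.A ≃+* (w.act s).A :=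
    { toFun := fun x => ⟨s x, by rw [Place.mem_act, s.symm_apply_apply]; exact x.2⟩
      invFun := fun x => ⟨s.symm x, x.2⟩
      left_inv := fun x => Subtype.ext (s.symm_apply_apply x)
      right_inv := fun x => Subtype.ext (s.apply_symm_apply x)
      map_mul' := fun x y => Subtype.ext (map_mul s (x : E) y)
      map_add' := fun x y => Subtype.ext (map_add s (x : E) y) }
  let e' := IsLocalRing.ResidueField.mapEquiv e
  have h : ∀ a : K, e' (algebraMap K w.res a) = algebraMap K (w.act s).res a := by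
    intro a
    have h1 : e (algebraMap K w.A a) = algebraMap K (w.act s).A a := by
      apply Subtype.ext
      exact s.commutes a
    have h2 : algebraMap K w.res a = IsLocalRing.residue w.A (algebraMap K w.A a) := rfl
    have h3 : algebraMap K (w.act s).res a =
        IsLocalRing.residue (w.act s).A (algebraMap K (w.act s).A a) := rfl
    rw [h2, h3, ← h1]
    rfl
  unfold Place.deg
  exact (LinearEquiv.finrank_eq
    ({ e' with
      map_smul' := fun a x => by
        change e' (a • x) = a • e' x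
        rw [Algebra.smul_def, Algebra.smul_def, map_mul, h] } : w.res ≃ₗ[K] (w.act s).res)).symm

/-- The action on divisors. -/
noncomputable def actDiv (s : E ≃ₐ[K] E) : AddMonoid.End (Place K E →₀ ℤ) :=
  (Finsupp.domCongr (M := ℤ) (actPerm K E s)).toAddMonoidHom

theorem actDiv_apply (s : E ≃ₐ[K] E) (D : Place K E →₀ ℤ) (w : Place K E) :
    actDiv s D w = D ((actPerm K E s).symm w) := rfl

theorem actDiv_pow (s : E ≃ₐ[K] E) (i : ℕ) (D : Place K E →₀ ℤ) (w : Place K E) :
    (actDiv s ^ i) D w = D ((actPerm K E s ^ i).symm w) := by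
  induction i generalizing D w with
  | zero => rfl
  | succ i ih =>
    rw [pow_succ]
    change ((actDiv s ^ i) (actDiv s D)) w = _
    rw [ih, actDiv_apply]
    have : (actPerm K E s ^ (i + 1)).symm w =
        (actPerm K E s).symm ((actPerm K E s ^ i).symm w) := by
      rw [Equiv.symm_apply_eq, pow_succ, Equiv.Perm.mul_apply, Equiv.apply_symm_apply,
        Equiv.apply_symm_apply]
    rw [this]

theorem actDiv_pow_one (s : E ≃ₐ[K] E) {l : ℕ} (hs : s ^ l = 1) :
    (actDiv s : AddMonoid.End (Place K E →₀ ℤ)) ^ l = 1 := by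
  refine AddMonoidHom.ext fun D => Finsupp.ext fun w => ?_
  refine (actDiv_pow s l D w).trans ?_
  rw [← map_pow, hs, map_one]
  rfl

theorem degDiv_actDiv (s : E ≃ₐ[K] E) (D : Place K E →₀ ℤ) :
    degDiv K E (actDiv s D) = degDiv K E D := by
  have h : (degDiv K E).comp (actDiv s : (Place K E →₀ ℤ) →+ (Place K E →₀ ℤ)) =
      degDiv K E := by
    refine Finsupp.addHom_ext fun w m => ?_
    have h1 : actDiv s (Finsupp.single w m) = Finsupp.single (w.act s) m := by
      change Finsupp.equivMapDomain _ (Finsupp.single w m) = _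
      rw [Finsupp.equivMapDomain_single]
      rfl
    change degDiv K E (actDiv s (Finsupp.single w m)) = _
    rw [h1, degDiv_single, degDiv_single, Place.deg_act]
  exact DFunLike.congr_fun h D

theorem actDiv_divOf (hE : IsCurveField K E) (s : E ≃ₐ[K] E) {g : E} (hg : g ≠ 0) :
    actDiv s (divOf hE g) = divOf hE (s g) := by
  ext w
  rw [actDiv_apply, divOf_apply, divOf_apply]
  obtain ⟨v, rfl⟩ := (actPerm K E s).surjective w
  rw [Equiv.symm_apply_apply, actPerm_apply, Place.ord_act hE s v hg]

theorem actDiv_pow_divOf (hE : IsCurveField K E) (s : E ≃ₐ[K] E) (i : ℕ) {g : E} (hg : g ≠ 0) :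
    (actDiv s ^ i) (divOf hE g) = divOf hE ((s ^ i) g) := by
  induction i with
  | zero => rfl
  | succ i ih =>
    rw [pow_succ', pow_succ']
    change actDiv s ((actDiv s ^ i) (divOf hE g)) = divOf hE (s ((s ^ i) g))
    rw [ih, actDiv_divOf hE s (aut_ne_zero (s ^ i) hg)]

/-- The action on divisor classes. -/
noncomputable def actPic (hE : IsCurveField K E) (s : E ≃ₐ[K] E) : AddMonoid.End (PicE hE) :=
  QuotientAddGroup.map (prinDiv hE) (prinDiv hE)
    (actDiv s : (Place K E →₀ ℤ) →+ (Place K E →₀ ℤ)) (by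
    rintro _ ⟨g, hg, rfl⟩
    exact ⟨s g, aut_ne_zero s hg, actDiv_divOf hE s hg⟩)

theorem actPic_mk (hE : IsCurveField K E) (s : E ≃ₐ[K] E) (D : Place K E →₀ ℤ) :
    actPic hE s (D : PicE hE) = ((actDiv s D : Place K E →₀ ℤ) : PicE hE) := rfl

theorem actPic_pow_mk (hE : IsCurveField K E) (s : E ≃ₐ[K] E) (i : ℕ) (D : Place K E →₀ ℤ) :
    (actPic hE s ^ i) (D : PicE hE) = (((actDiv s ^ i) D : Place K E →₀ ℤ) : PicE hE) := by
  induction i with
  | zero => rfl
  | succ i ih =>
    rw [pow_succ', pow_succ']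
    change actPic hE s ((actPic hE s ^ i) (D : PicE hE)) = _
    rw [ih]
    rfl

theorem nm_actPic_mk (hE : IsCurveField K E) (s : E ≃ₐ[K] E) (l : ℕ) (D : Place K E →₀ ℤ) :
    nm (actPic hE s) l (D : PicE hE) = ((nm (actDiv s) l D : Place K E →₀ ℤ) : PicE hE) := by
  rw [nm_apply, nm_apply]
  have h : ((∑ i ∈ Finset.range l, (actDiv s ^ i) D : Place K E →₀ ℤ) : PicE hE) =
      QuotientAddGroup.mk' (prinDiv hE) (∑ i ∈ Finset.range l, (actDiv s ^ i) D) := rfl
  rw [h, map_sum]
  exact Finset.sum_congr rfl fun i _ => actPic_pow_mk hE s i D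

theorem nm_actDiv_divOf (hE : IsCurveField K E) (s : E ≃ₐ[K] E) (l : ℕ) {g : E} (hg : g ≠ 0) :
    nm (actDiv s) l (divOf hE g) = divOf hE (∏ i ∈ Finset.range l, (s ^ i) g) := by
  rw [nm_apply, divOf_prod]
  · exact Finset.sum_congr rfl fun i _ => actDiv_pow_divOf hE s i hg
  · intro i _
    exact aut_ne_zero (s ^ i) hg

/-- **The contradiction.** -/
theorem no_free_act [Finite K] (hE : IsCurveField K E) (s : E ≃ₐ[K] E) {l : ℕ} (hl : l.Prime)
    (hs : s ^ l = 1) (hs1 : s ≠ 1) (hfix : ∀ w : Place K E, w.act s ≠ w)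
    (hnorm : ∀ g : E, g ≠ 0 → s g = g → divOf hE g = 0 →
      ∃ a : E, a ≠ 0 ∧ divOf hE a = 0 ∧ ∏ i ∈ Finset.range l, (s ^ i) a = g)
    (w₀ : Place K E) : False := by
  have hinj : ∀ i j : ℕ, i < l → j < l → s ^ i = s ^ j → i = j := by
    have hord : orderOf s = l := by
      have := Nat.Prime.eq_one_or_self_of_dvd hl _ (orderOf_dvd_of_pow_eq_one hs)
      rcases this with h | h
      · exact absurd (orderOf_eq_one_iff.1 h) hs1
      · exact h
    intro i j hi hj hij
    rw [← hord] at hi hj
    exact pow_injOn_Iio_orderOf hi hj hij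
  have hPS : actPerm K E s ^ l = 1 := by rw [← map_pow, hs, map_one]
  have hpicl : actPic hE s ^ l = 1 := by
    refine AddMonoidHom.ext fun c => ?_
    obtain ⟨D, rfl⟩ := QuotientAddGroup.mk_surjective c
    have h1 := actPic_pow_mk hE s l D
    rw [actDiv_pow_one s hs] at h1
    exact h1
  refine no_class hl.two_le hpicl ?_ (degPic hE) ?_ (finite_pic0 hE)
    (c₁ := ((Finsupp.single w₀ 1 : Place K E →₀ ℤ) : PicE hE)) ?_
  · intro c hc
    obtain ⟨D, rfl⟩ := QuotientAddGroup.mk_surjective c
    have hc' : actPic hE s (D : PicE hE) = (D : PicE hE) := hc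
    rw [actPic_mk, ← sub_eq_zero] at hc'
    have h1 : actDiv s D - D ∈ prinDiv hE := by
      rw [← QuotientAddGroup.eq_zero_iff, QuotientAddGroup.mk_sub]
      exact hc'
    obtain ⟨f, hf0, hf⟩ := h1
    -- the norm of `f`
    set g := ∏ i ∈ Finset.range l, (s ^ i) f with hg
    have hsi0 : ∀ (i : ℕ) {x : E}, x ≠ 0 → (s ^ i) x ≠ 0 := fun i x hx =>
      aut_ne_zero (s ^ i) hx
    have hg0 : g ≠ 0 := Finset.prod_ne_zero_iff.2 fun i _ => hsi0 i hf0
    have hgs : s g = g := by
      rw [hg, map_prod]
      have h2 := Finset.prod_range_succ' (fun i => (s ^ i) f) l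
      have h3 := Finset.prod_range_succ (fun i => (s ^ i) f) l
      rw [h3, hs, pow_zero] at h2
      have h4 := mul_right_cancel₀ (show (1 : E ≃ₐ[K] E) f ≠ 0 from hf0) h2
      rw [h4]
      refine Finset.prod_congr rfl fun i _ => ?_
      rw [pow_succ']
      rfl
    have hgd : divOf hE g = 0 := by
      rw [hg, ← nm_actDiv_divOf hE s l hf0, ← hf]
      have := DFunLike.congr_fun (nm_mul_sub_one (actDiv_pow_one s hs)) D
      exact this
    obtain ⟨a, ha0, had, han⟩ := hnorm g hg0 hgs hgd
    have h5 : ∏ i ∈ Finset.range l, (s ^ i) (f / a) = 1 := by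
      have : ∀ i ∈ Finset.range l, (s ^ i) (f / a) = (s ^ i) f / (s ^ i) a :=
        fun i _ => map_div₀ _ _ _
      rw [Finset.prod_congr rfl this, Finset.prod_div_distrib, han, ← hg, div_self hg0]
    obtain ⟨h, hh0, hh⟩ := hilbert90 s hl.pos hs hinj (f / a) h5
    have hsh0 : s h ≠ 0 := aut_ne_zero s hh0
    have h6 : actDiv s D - D = actDiv s (divOf hE h) - divOf hE h := by
      rw [hf, actDiv_divOf hE s hh0, ← divOf_div hE hsh0 hh0, ← hh, divOf_div hE hf0 ha0, had,
        sub_zero]
    -- the invariant divisor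
    have h7 : ∀ w, (D - divOf hE h) ((actPerm K E s).symm w) = (D - divOf hE h) w := by
      intro w
      have h8 := DFunLike.congr_fun h6 w
      rw [Finsupp.sub_apply, Finsupp.sub_apply, actDiv_apply, actDiv_apply] at h8
      rw [Finsupp.sub_apply, Finsupp.sub_apply]
      linarith
    obtain ⟨D', hD'⟩ := exists_norm (actPerm K E s) hl hPS hfix (D - divOf hE h) h7
    refine ⟨((D' : Place K E →₀ ℤ) : PicE hE), ?_⟩
    rw [nm_actPic_mk]
    have h9 : D - divOf hE h = nm (actDiv s) l D' := by
      ext w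
      rw [hD' w, nm_apply, Finsupp.finsetSum_apply]
      exact Finset.sum_congr rfl fun i _ => (actDiv_pow s i D' w).symm
    rw [← h9, QuotientAddGroup.mk_sub]
    have h10 : ((divOf hE h : Place K E →₀ ℤ) : PicE hE) = 0 := by
      rw [QuotientAddGroup.eq_zero_iff]
      exact ⟨h, hh0, rfl⟩
    rw [h10, sub_zero]
  · intro c
    obtain ⟨D, rfl⟩ := QuotientAddGroup.mk_surjective c
    exact degDiv_actDiv s D
  · rw [degPic_mk, degDiv_single]
    have := w₀.deg_pos hE
    omega

end ZC
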