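import Mathlib

/-!
# Row A3 of BD: lemmas on finite fields
-/

set_option autoImplicit false

namespace BDA

open Polynomial

/-- An element fixed by the Frobenius of a finite subfield belongs to it. -/
theorem exists_of_pow_card {K L : Type*} [Field K] [Finite K] [Field L] (j : K →+* L) {z : L}
    (hz : z ^ Nat.card K = z) : ∃ x, j x = z := by
  classical
  have := Fintype.ofFinite K
  rw [Nat.card_eq_fintype_card] at hz
  have hq : 1 < Fintype.card K := Fintype.one_lt_card
  set P : L[X] := X ^ Fintype.card K - X with hP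
  have hP0 : P ≠ 0 := FiniteField.X_pow_card_sub_X_ne_zero L hq
  have h1 : Finset.univ.image j ⊆ P.roots.toFinset := by
    intro y hy
    obtain ⟨x, -, rfl⟩ := Finset.mem_image.1 hy
    rw [Multiset.mem_toFinset, mem_roots hP0, IsRoot, hP, eval_sub, eval_pow, eval_X, ← map_pow,
      FiniteField.pow_card, sub_self]
  have h2 : P.roots.toFinset.card ≤ Fintype.card K :=
    (Multiset.toFinset_card_le _).trans ((card_roots' P).trans
      (FiniteField.X_pow_card_sub_X_natDegree_eq L hq).le)
  have h3 := Finset.eq_of_subset_of_card_le h1 (by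
    rw [Finset.card_image_of_injective _ j.injective, Finset.card_univ]
    exact h2)
  have h4 : z ∈ P.roots.toFinset := by
    rw [Multiset.mem_toFinset, mem_roots hP0, IsRoot, hP, eval_sub, eval_pow, eval_X, hz, sub_self]
  rw [← h3] at h4
  obtain ⟨x, -, hx⟩ := Finset.mem_image.1 h4
  exact ⟨x, hx⟩

/-- A finite field has irreducible polynomials of any degree. -/
theorem exists_irreducible (F : Type*) [Field F] [Finite F] {l : ℕ} (hl : 0 < l) :
    ∃ g : F[X], g.Monic ∧ Irreducible g ∧ g.natDegree = l := by
  obtain ⟨p, hp⟩ := CharP.exists F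
  have : Fact (Nat.Prime p) := ⟨CharP.char_is_prime F p⟩
  have : NeZero l := ⟨hl.ne'⟩
  obtain ⟨a, ha⟩ := Field.exists_primitive_element F (FiniteField.Extension F p l)
  have hint : IsIntegral F a := Algebra.IsIntegral.isIntegral a
  refine ⟨minpoly F a, minpoly.monic hint, minpoly.irreducible hint, ?_⟩
  rw [← IntermediateField.adjoin.finrank hint, ha, IntermediateField.finrank_top',
    FiniteField.finrank_extension]

/-- An irreducible polynomial has a root in a finite extension of degree divisible by its
degree. -/
theorem exists_root_of_dvd {F L : Type*} [Field F] [Finite F] [Field L] [Finite L] [Algebra F L]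
    {g : F[X]} (hi : Irreducible g) (hdvd : g.natDegree ∣ Module.finrank F L) :
    ∃ y : L, aeval y g = 0 := by
  have := Fintype.ofFinite L
  have h1 := hi.natDegree_dvd_iff_dvd_X_pow_card_pow_sub_X.1 hdvd
  have hfin : Module.Finite F L := Module.Finite.of_finite
  rw [← Module.natCard_eq_pow_finrank, Nat.card_eq_fintype_card] at h1
  have h2 := (FiniteField.isSplittingField_sub L F).splits
  have h3 : (g.map (algebraMap F L)).Splits := by
    refine Splits.of_dvd h2 ?_ (Polynomial.map_dvd _ h1)
    exact map_ne_zero (FiniteField.X_pow_card_sub_X_ne_zero _ Fintype.one_lt_card)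
  have h4 : (g.map (algebraMap F L)).degree ≠ 0 := by
    rw [degree_map]
    exact (degree_pos_of_irreducible hi).ne'
  obtain ⟨y, hy⟩ := h3.exists_eval_eq_zero h4
  refine ⟨y, ?_⟩
  rw [aeval_def, ← eval_map]
  exact hy

/-- If `F` is algebraically closed in `E`, irreducible polynomials stay irreducible. -/
theorem irreducible_map_of_closed {F E : Type*} [Field F] [Field E] [Algebra F E]
    (hc : ∀ x : E, IsAlgebraic F x → x ∈ (algebraMap F E).range) {g : F[X]} (hm : g.Monic)
    (hi : Irreducible g) : Irreducible (g.map (algebraMap F E)) := by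
  have hlift : ∀ f : E[X], f.Monic → f ∣ g.map (algebraMap F E) → f ∈ lifts (algebraMap F E) := by
    intro f hf hd
    have h1 := integralClosure.mem_lifts_of_monic_of_dvd_map E hm hf hd
    rw [lifts_iff_coeff_lifts] at h1 ⊢
    intro n
    obtain ⟨y, hy⟩ := h1 n
    have h2 : IsIntegral F (f.coeff n) := by
      rw [← hy]
      exact y.2
    obtain ⟨x, hx⟩ := hc _ h2.isAlgebraic
    exact ⟨x, hx⟩
  rw [(hm.map (algebraMap F E)).irreducible_iff_natDegree]
  have h0 := (hm.irreducible_iff_natDegree).1 hi
  refine ⟨fun h => ?_, fun a b ha hb hab => ?_⟩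
  · apply h0.1
    apply Polynomial.map_injective _ (algebraMap F E).injective
    rw [h, Polynomial.map_one]
  · obtain ⟨a', ha1, ha2, ha3⟩ := lifts_and_natDegree_eq_and_monic
      (hlift a ha ⟨b, hab.symm⟩) ha
    obtain ⟨b', hb1, hb2, hb3⟩ := lifts_and_natDegree_eq_and_monic
      (hlift b hb ⟨a, by rw [mul_comm]; exact hab.symm⟩) hb
    rw [← ha2, ← hb2]
    apply h0.2 a' b' ha3 hb3
    apply Polynomial.map_injective _ (algebraMap F E).injective
    rw [Polynomial.map_mul, ha1, hb1, hab]

end BDA
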