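import Pool.Agent.Helper63.BD.Act
import Pool.Agent.Helper63.BD.FF
import Pool.Agent.Helper15.ZF.CurveNorm

/-!
# Row A3 of BD: a place of degree prime to `l`

Let `E` be a curve over a finite field `F`, with `F` algebraically closed in `E`.  For every prime
`l` there is a place of degree prime to `l` (F. K. Schmidt), and there are infinitely many.
-/

set_option autoImplicit false

namespace ZC

universe u

open PCl Polynomial BDA

variable {F E : Type u} [Field F] [Field E] [Algebra F E]

/-- A function with trivial divisor is a constant. -/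
theorem isAlgebraic_of_divOf (hE : IsCurveField F E) {f : E} (hf : divOf hE f = 0) :
    IsAlgebraic F f := by
  by_contra htr
  obtain ⟨w, hw⟩ := exists_placeK (K := F) htr
  have hf0 : f ≠ 0 := by
    rintro rfl
    exact htr isAlgebraic_zero
  have h1 := ((w.isOrd_of hE.hRel).pos_iff (inv_ne_zero hf0)).2 hw
  rw [(w.isOrd_of hE.hRel).inv hf0, ← divOf_apply hE, hf] at h1
  simp at h1

/-- The divisor of a constant is trivial. -/
theorem divOf_of_isAlgebraic (hE : IsCurveField F E) {f : E} (hf : IsAlgebraic F f)
    (hf0 : f ≠ 0) : divOf hE f = 0 := by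
  ext w
  rw [divOf_apply, Finsupp.zero_apply]
  by_contra hne
  have ho := w.isOrd_of hE.hRel
  rcases lt_or_gt_of_ne hne with h | h
  · have h1 : f⁻¹ ∈ w.A.nonunits := (ho.pos_iff (inv_ne_zero hf0)).1 (by
      rw [ho.inv hf0]
      omega)
    exact w.transc h1 (inv_ne_zero hf0) hf.inv
  · exact w.transc ((ho.pos_iff hf0).1 h) hf0 hf

theorem Place.mem_nonunits_act (s : E ≃ₐ[F] E) (w : Place F E) {x : E}
    (hx : x ∈ w.A.nonunits) : s x ∈ (w.act s).A.nonunits := by
  rw [ValuationSubring.mem_nonunits_iff_or] at hx ⊢
  rcases hx with h | h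
  · left
    rw [h, map_zero]
  · right
    rw [Place.mem_act, map_inv₀, s.symm_apply_apply]
    exact h

theorem exists_place (hE : IsCurveField F E) : Nonempty (Place F E) := by
  obtain ⟨t, ht, -⟩ := hE
  obtain ⟨w, -⟩ := exists_placeK ht
  exact ⟨w⟩

section

variable [Finite F] {g : F[X]} {l : ℕ}

/-- **F. K. Schmidt**: a curve over a finite field `F` has a place of degree prime to `l`, if `F`
is algebraically closed in its function field. -/
theorem exists_place_coprime (hE : IsCurveField F E)
    (hc : ∀ x : E, IsAlgebraic F x → x ∈ (algebraMap F E).range) (hl : l.Prime) :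
    ∃ w : Place F E, ¬ l ∣ w.deg := by
  classical
  by_contra hall
  push Not at hall
  obtain ⟨g, hgm, hgi, hgd⟩ := exists_irreducible F hl.pos
  have hirr := irreducible_map_of_closed hc hgm hgi
  have hfact : Fact (Irreducible (g.map (algebraMap F E))) := ⟨hirr⟩
  have hfact' : Fact (Irreducible g) := ⟨hgi⟩
  -- the extension `M` of `E`
  set M := AdjoinRoot (g.map (algebraMap F E)) with hM
  set a : M := AdjoinRoot.root (g.map (algebraMap F E)) with ha
  have haE : aeval a (g.map (algebraMap F E)) = 0 := by
    rw [ha, aeval_def, AdjoinRoot.algebraMap_eq, AdjoinRoot.eval₂_root]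
  have haF : aeval a g = 0 := by
    rw [← haE, aeval_map_algebraMap]
  have hfd : FiniteDimensional E M := (AdjoinRoot.powerBasis hirr.ne_zero).finite
  have hrank : Module.finrank E M = l := by
    rw [(AdjoinRoot.powerBasis hirr.ne_zero).finrank, AdjoinRoot.powerBasis_dim, natDegree_map,
      hgd]
  have hEM : IsCurveField F M := isCurveField_of_finite (E := E) hE
  -- the finite field
  set F' := AdjoinRoot g with hF'
  have hfdF' : FiniteDimensional F F' := (AdjoinRoot.powerBasis hgi.ne_zero).finite
  have hfinF' : Finite F' := Module.finite_of_finite F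
  have hrankF' : Module.finrank F F' = l := by
    rw [(AdjoinRoot.powerBasis hgi.ne_zero).finrank, AdjoinRoot.powerBasis_dim, hgd]
  have hcardF' : Nat.card F' = Nat.card F ^ l := by
    rw [Module.natCard_eq_pow_finrank (K := F), hrankF']
  set q := Nat.card F with hq
  have hq1 : 1 < q := Finite.one_lt_card
  obtain ⟨p, hp⟩ := CharP.exists F
  have hpp : Fact p.Prime := ⟨CharP.char_is_prime F p⟩
  -- the embedding of `F'`
  set ι : F' →ₐ[F] M := AdjoinRoot.liftAlgHom g (Algebra.ofId F M) a haF with hι
  have hιa : ι (AdjoinRoot.root g) = a := AdjoinRoot.liftAlgHom_root _ _ _ _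
  -- Frobenius
  have hfrobF : ∀ (L : Type u) [Field L] [Algebra F L] (x : L) (f : F[X]), aeval x f = 0 →
      aeval (x ^ q) f = 0 := by
    intro L _ _ x f hx
    have := Fintype.ofFinite F
    have h1 : expand F q f = f ^ q := by
      rw [hq, Nat.card_eq_fintype_card]
      exact FiniteField.expand_card f
    rw [← expand_aeval, h1, map_pow, hx, zero_pow (by omega)]
  have haq : (g.map (algebraMap F E)).eval₂ (Algebra.ofId E M : E →+* M) (a ^ q) = 0 := by
    have h1 := hfrobF M a g haF
    rw [← aeval_map_algebraMap E] at h1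
    exact h1
  set s₀ : M →ₐ[E] M := AdjoinRoot.liftAlgHom _ (Algebra.ofId E M) (a ^ q) haq with hs₀
  have hs₀a : s₀ a = a ^ q := AdjoinRoot.liftAlgHom_root _ _ _ _
  set sE : M ≃ₐ[E] M := AlgEquiv.ofBijective s₀ (Algebra.IsAlgebraic.algHom_bijective s₀) with hsE
  have hsEa : sE a = a ^ q := hs₀a
  have hsEpow : ∀ i : ℕ, (sE ^ i) a = a ^ q ^ i := by
    intro i
    induction i with
    | zero => simp
    | succ i ih =>
      rw [pow_succ']
      change sE ((sE ^ i) a) = _
      rw [ih, map_pow, hsEa, ← pow_mul, pow_succ']
  have haql : a ^ q ^ l = a := by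
    rw [← hιa, ← map_pow, hq, ← hcardF']
    congr 1
    have := Fintype.ofFinite F'
    rw [Nat.card_eq_fintype_card]
    exact FiniteField.pow_card _
  have hsEl : sE ^ l = 1 := by
    apply AlgEquiv.coe_toAlgHom_injective
    apply AdjoinRoot.algHom_ext
    change (sE ^ l) a = a
    rw [hsEpow, haql]
  set s : M ≃ₐ[F] M := sE.restrictScalars F with hs
  have hspow : ∀ (i : ℕ) (x : M), (s ^ i) x = (sE ^ i) x := by
    intro i
    induction i with
    | zero => intro x; rfl
    | succ i ih =>
      intro x
      rw [pow_succ', pow_succ']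
      change s ((s ^ i) x) = sE ((sE ^ i) x)
      rw [ih]
      rfl
  have hsl : s ^ l = 1 := by
    ext x
    rw [hspow, hsEl]
    rfl
  have hsfix : ∀ e : E, s (algebraMap E M e) = algebraMap E M e := fun e => sE.commutes e
  -- `ι` and Frobenius
  have hsι : ∀ x : F', s (ι x) = ι (x ^ q) := by
    intro x
    have := Fintype.ofFinite F
    let fr : F' →ₐ[F] F' := FiniteField.frobeniusAlgHom F F'
    have h1 : (s : M →ₐ[F] M).comp ι = ι.comp fr := by
      apply AdjoinRoot.algHom_ext
      change s (ι (AdjoinRoot.root g)) = ι ((AdjoinRoot.root g) ^ Fintype.card F)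
      rw [map_pow, hιa, ← Nat.card_eq_fintype_card]
      exact hsEa
    have h2 := DFunLike.congr_fun h1 x
    change s (ι x) = ι (x ^ Fintype.card F) at h2
    rw [← Nat.card_eq_fintype_card] at h2
    exact h2
  have hsιpow : ∀ (i : ℕ) (x : F'), (s ^ i) (ι x) = ι (x ^ q ^ i) := by
    intro i
    induction i with
    | zero => intro x; simp
    | succ i ih =>
      intro x
      rw [pow_succ']
      change s ((s ^ i) (ι x)) = _
      rw [ih, hsι, ← pow_mul, pow_succ]
  -- elements of `F'` fixed by Frobenius
  have hfixF' : ∀ x : F', x ^ q = x → x ∈ (algebraMap F F').range := by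
    intro x hx
    obtain ⟨c, hc⟩ := exists_of_pow_card (algebraMap F F') hx
    exact ⟨c, hc⟩
  have hnoroot : ∀ c : F, aeval c g ≠ 0 := by
    intro c hc0
    have h1 := degree_eq_one_of_irreducible_of_root hgi (x := c) (by
      rw [IsRoot, ← hc0]
      simp)
    have h2 := natDegree_eq_of_degree_eq_some h1
    rw [hgd] at h2
    exact hl.one_lt.ne' h2
  have hs1 : s ≠ 1 := by
    intro h
    have h1 : a ^ q = a := by
      rw [← hsEa]
      exact DFunLike.congr_fun h a
    obtain ⟨c, hc⟩ := exists_of_pow_card (algebraMap F M) h1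
    apply hnoroot c
    have h2 : algebraMap F M (aeval c g) = 0 := by
      rw [← aeval_algebraMap_apply, hc, haF]
    exact (map_eq_zero_iff _ (algebraMap F M).injective).1 h2
  obtain ⟨w₀⟩ := exists_place hEM
  refine no_free_act hEM s hl hsl hs1 ?_ ?_ w₀
  · -- no fixed places
    intro w hw
    have hv := hall (w.under E)
    have hfinv : Finite (w.under E).res := (w.under E).finite_res hE
    rw [← hgd] at hv
    obtain ⟨y, hy⟩ := exists_root_of_dvd hgi hv
    obtain ⟨b, hb⟩ := IsLocalRing.residue_surjective y
    -- the embedding of `F'` in the residue field of `w`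
    have hιw : ∀ x : F', ι x ∈ w.A := by
      intro x
      by_contra hx
      have hx0 : ι x ≠ 0 := fun h => hx (h ▸ w.A.zero_mem)
      have h1 : (ι x)⁻¹ ∈ w.A.nonunits := by
        rw [ValuationSubring.mem_nonunits_iff_or]
        right
        rwa [inv_inv]
      apply w.transc h1 (inv_ne_zero hx0)
      have h2 : IsAlgebraic F x := Algebra.IsAlgebraic.isAlgebraic x
      have h3 : IsAlgebraic F (ι x) := h2.algHom ι
      exact h3.inv
    let j₀ : F' →ₐ[F] w.A :=
      { toFun := fun x => ⟨ι x, hιw x⟩
        map_one' := Subtype.ext (map_one ι)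
        map_zero' := Subtype.ext (map_zero ι)
        map_mul' := fun x y => Subtype.ext (map_mul ι x y)
        map_add' := fun x y => Subtype.ext (map_add ι x y)
        commutes' := fun c => Subtype.ext (ι.commutes c) }
    let j : F' →+* w.res := (IsLocalRing.residue w.A).comp (j₀ : F' →+* w.A)
    have hbw : algebraMap E M (b : E) ∈ w.A := b.2
    set z : w.res := IsLocalRing.residue w.A ⟨algebraMap E M (b : E), hbw⟩ with hz
    -- `z` is a root of `g`
    have hzg : aeval z g = 0 := by
      have h1 : (IsLocalRing.residue w.A) ⟨algebraMap E M (b : E), hbw⟩ =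
          IsLocalRing.ResidueField.map (Place.ringMap E w) (IsLocalRing.residue _ b) := by
        rw [IsLocalRing.ResidueField.map_residue]
        rfl
      have h2 : ∀ c : F, IsLocalRing.ResidueField.map (Place.ringMap E w)
          (algebraMap F (w.under E).res c) = algebraMap F w.res c := by
        intro c
        have h3 : algebraMap F (w.under E).res c =
          IsLocalRing.residue _ (algebraMap F (w.under E).A c) := rfl
        rw [h3, IsLocalRing.ResidueField.map_residue]
        have h4 : Place.ringMap E w (algebraMap F (w.under E).A c) = algebraMap F w.A c := by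
          apply Subtype.ext
          change algebraMap E M (algebraMap F E c) = algebraMap F M c
          rw [← IsScalarTower.algebraMap_apply]
        rw [h4]
        rfl
      have h5 : aeval z g = IsLocalRing.ResidueField.map (Place.ringMap E w) (aeval y g) := by
        rw [hz, h1, hb]
        rw [aeval_def, aeval_def, hom_eval₂]
        congr 1
      rw [h5, hy, map_zero]
    -- so it comes from `F'`
    have hzq : z ^ Nat.card F' = z := by
      have h1 := hgi.natDegree_dvd_iff_dvd_X_pow_card_pow_sub_X.1 (dvd_refl g.natDegree)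
      obtain ⟨r, hr⟩ := h1
      have h2 := congrArg (aeval z) hr
      rw [map_mul, hzg, zero_mul, map_sub, map_pow, aeval_X, sub_eq_zero, hgd] at h2
      rw [hcardF']
      exact h2
    obtain ⟨x', hx'⟩ := exists_of_pow_card j hzq
    -- apply `s`
    have h1 : ι x' - algebraMap E M (b : E) ∈ w.A.nonunits := by
      have h2 : IsLocalRing.residue w.A (⟨ι x', hιw x'⟩ - ⟨algebraMap E M (b : E), hbw⟩) = 0 := by
        rw [map_sub, sub_eq_zero]
        exact hx'
      rw [IsLocalRing.residue_eq_zero_iff] at h2
      rw [w.A.mem_nonunits_iff]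
      exact (w.A.valuation_lt_one_iff _).1 h2
    have h2 := w.mem_nonunits_act s h1
    rw [hw, map_sub, hsfix, hsι] at h2
    have h3 : (⟨ι (x' ^ q), hιw _⟩ : w.A) - ⟨algebraMap E M (b : E), hbw⟩ ∈
        IsLocalRing.maximalIdeal w.A := by
      rw [w.A.mem_nonunits_iff] at h2
      exact (w.A.valuation_lt_one_iff _).2 h2
    rw [← IsLocalRing.residue_eq_zero_iff, map_sub, sub_eq_zero] at h3
    have h4 : j (x' ^ q) = j x' := by
      rw [hx']
      exact h3
    have h5 := j.injective h4
    obtain ⟨c, hc'⟩ := hfixF' x' h5
    -- `c` is a root of `g`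
    apply hnoroot c
    have h6 : z = algebraMap F w.res c := by
      rw [← hx', ← hc']
      change IsLocalRing.residue w.A (j₀ (algebraMap F F' c)) = _
      rw [j₀.commutes]
      rfl
    have h7 : algebraMap F w.res (aeval c g) = 0 := by
      rw [← aeval_algebraMap_apply, ← h6, hzg]
    exact (map_eq_zero_iff _ (algebraMap F w.res).injective).1 h7
  · -- invariant constants are norms
    intro f hf0 hsf hdf
    -- `f` lies in `E`
    have hfE : ∃ e : E, algebraMap E M e = f := by
      have hsimple := IntermediateField.isSimpleOrder_of_finrank_prime E M (hrank ▸ hl)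
      set L := IntermediateField.fixedField (Subgroup.zpowers sE) with hL
      have h1 : L ≠ ⊤ := by
        intro h
        have h2 : a ∈ L := by rw [h]; trivial
        rw [hL, IntermediateField.mem_fixedField_iff] at h2
        have h3 := h2 sE (Subgroup.mem_zpowers sE)
        rw [hsEa] at h3
        apply hs1
        have h4 : sE = 1 := by
          apply AlgEquiv.coe_toAlgHom_injective
          apply AdjoinRoot.algHom_ext
          change sE a = a
          rw [hsEa, h3]
        ext x
        change sE x = x
        rw [h4]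
        rfl
      have h2 : L = ⊥ := (hsimple.eq_bot_or_eq_top L).resolve_right h1
      have h3 : f ∈ L := by
        rw [hL, IntermediateField.mem_fixedField_iff]
        intro σ hσ
        obtain ⟨n, rfl⟩ := Subgroup.mem_zpowers_iff.1 hσ
        have h4 : sE f = f := hsf
        have h5 : ∀ n : ℤ, (sE ^ n) f = f := by
          have hfixed : sE ∈ MulAction.stabilizer (M ≃ₐ[E] M) f := h4
          intro n
          have := Subgroup.zpow_mem _ hfixed n
          exact this
        exact h5 n
      rw [h2, IntermediateField.mem_bot] at h3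
      exact h3
    obtain ⟨e, he⟩ := hfE
    have halg : IsAlgebraic F f := isAlgebraic_of_divOf hEM hdf
    rw [← he] at halg
    have halg' : IsAlgebraic F e :=
      (isAlgebraic_algebraMap_iff (algebraMap E M).injective).1 halg
    obtain ⟨c, hc'⟩ := hc e halg'
    obtain ⟨b, hb⟩ := FiniteField.norm_surjective F F' c
    have hfc : f = algebraMap F M c := by
      rw [← he, ← hc', ← IsScalarTower.algebraMap_apply]
    have hnorm : ∏ i ∈ Finset.range l, (s ^ i) (ι b) = f := by
      have h1 : ∀ i ∈ Finset.range l, (s ^ i) (ι b) = ι (b ^ q ^ i) := fun i _ => hsιpow i b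
      rw [Finset.prod_congr rfl h1, ← map_prod, Finset.prod_pow_eq_pow_sum,
        Nat.geomSum_eq hq1]
      have h2 := FiniteField.algebraMap_norm_eq_pow (K := F) (K' := F') (x := b)
      rw [hb, hcardF'] at h2
      rw [← h2, ι.commutes, hfc]
    have hb0 : ι b ≠ 0 := by
      intro h
      apply hf0
      rw [← hnorm]
      apply Finset.prod_eq_zero (Finset.mem_range.2 hl.pos)
      rw [h, map_zero]
    refine ⟨ι b, hb0, ?_, hnorm⟩
    apply divOf_of_isAlgebraic hEM _ hb0
    have h2 : IsAlgebraic F b := Algebra.IsAlgebraic.isAlgebraic b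
    exact h2.algHom ι

end

end ZC
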