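import Mathlib

/-!
# Row A3 of BD, group theory

An abelian group with a degree map with finite kernel and an automorphism `s` of order `l` cannot
have all its invariants among the norms.
-/

set_option autoImplicit false

namespace BDA

variable {A : Type*} [AddCommGroup A]

/-- The norm of an endomorphism: the sum of its first `l` powers. -/
def nm (s : AddMonoid.End A) (l : ℕ) : AddMonoid.End A := ∑ i ∈ Finset.range l, s ^ i

theorem nm_apply (s : AddMonoid.End A) (l : ℕ) (c : A) :
    nm s l c = ∑ i ∈ Finset.range l, (s ^ i) c := by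
  rw [nm]
  exact AddMonoidHom.finsetSum_apply _ _ _

theorem sub_one_mul_nm {s : AddMonoid.End A} {l : ℕ} (hs : s ^ l = 1) : (s - 1) * nm s l = 0 := by
  rw [nm, mul_geom_sum, hs, sub_self]

theorem nm_mul_sub_one {s : AddMonoid.End A} {l : ℕ} (hs : s ^ l = 1) : nm s l * (s - 1) = 0 := by
  rw [nm, geom_sum_mul, hs, sub_self]

/-- Herbrand: in a finite group, if the invariants are norms then the elements of norm zero are
of the form `s c - c`. -/
theorem ker_nm [Finite A] {s : AddMonoid.End A} {l : ℕ} (hs : s ^ l = 1)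
    (h : ∀ c : A, s c = c → ∃ c', c = nm s l c') (c : A) (hc : nm s l c = 0) :
    ∃ c', c = s c' - c' := by
  set f : A →+ A := (s - 1 : AddMonoid.End A) with hf
  set g : A →+ A := nm s l with hg
  have hfa : ∀ c, f c = s c - c := fun c => rfl
  have e1 : f.ker = g.range := by
    ext c
    rw [AddMonoidHom.mem_ker, AddMonoidHom.mem_range, hfa, sub_eq_zero]
    constructor
    · intro h1
      obtain ⟨c', h2⟩ := h c h1
      exact ⟨c', h2.symm⟩
    · rintro ⟨c', rfl⟩
      have h1 := DFunLike.congr_fun (sub_one_mul_nm hs) c'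
      exact sub_eq_zero.1 h1
  have h2 : f.range ≤ g.ker := by
    rintro _ ⟨c', rfl⟩
    rw [AddMonoidHom.mem_ker]
    exact DFunLike.congr_fun (nm_mul_sub_one hs) c'
  have c1 : Nat.card A = Nat.card f.range * Nat.card f.ker := by
    rw [AddSubgroup.card_eq_card_quotient_mul_card_addSubgroup f.ker,
      Nat.card_congr (QuotientAddGroup.quotientKerEquivRange f).toEquiv]
  have c2 : Nat.card A = Nat.card g.range * Nat.card g.ker := by
    rw [AddSubgroup.card_eq_card_quotient_mul_card_addSubgroup g.ker,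
      Nat.card_congr (QuotientAddGroup.quotientKerEquivRange g).toEquiv]
  rw [e1] at c1
  have hpos : 0 < Nat.card g.range := Nat.card_pos
  have c3 : Nat.card f.range = Nat.card g.ker := by
    rw [c1, mul_comm] at c2
    exact Nat.eq_of_mul_eq_mul_left hpos c2
  have h3 : f.range = g.ker := by
    apply AddSubgroup.eq_of_le_of_card_ge h2
    exact c3.ge
  have h4 : c ∈ f.range := by
    rw [h3]
    exact hc
  obtain ⟨c', h5⟩ := h4
  exact ⟨c', h5.symm⟩

/-- The contradiction. -/
theorem no_class {s : AddMonoid.End A} {l : ℕ} (hl : 2 ≤ l) (hs : s ^ l = 1)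
    (h : ∀ c : A, s c = c → ∃ c', c = nm s l c') (deg : A →+ ℤ) (hdeg : ∀ c, deg (s c) = deg c)
    (hfin : Finite deg.ker) {c₁ : A} (hc₁ : 0 < deg c₁) : False := by
  have hdegp : ∀ (i : ℕ) (c : A), deg ((s ^ i) c) = deg c := by
    intro i
    induction i with
    | zero => intro c; rfl
    | succ i ih =>
      intro c
      rw [pow_succ']
      exact (hdeg _).trans (ih c)
  have hdn : ∀ c, deg (nm s l c) = l * deg c := by
    intro c
    rw [nm_apply, map_sum, Finset.sum_congr rfl fun i _ => hdegp i c, Finset.sum_const,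
      Finset.card_range, nsmul_eq_mul]
  -- a class of minimal positive degree
  have hex : ∃ m : ℕ, 0 < m ∧ ∃ c : A, deg c = m :=
    ⟨(deg c₁).toNat, by omega, c₁, by omega⟩
  classical
  obtain ⟨hm, c, hc⟩ := Nat.find_spec hex
  set m := Nat.find hex with hm'
  -- the group of degree zero
  have hmem : ∀ c, c ∈ deg.ker → s c ∈ deg.ker := by
    intro c hc
    rw [AddMonoidHom.mem_ker] at hc ⊢
    rw [hdeg, hc]
  let s' : AddMonoid.End deg.ker :=
    { toFun := fun c => ⟨s c, hmem c c.2⟩
      map_zero' := Subtype.ext (map_zero s)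
      map_add' := fun a b => Subtype.ext (map_add s (a : A) (b : A)) }
  have hs'i : ∀ (i : ℕ) (c : deg.ker), (((s' ^ i) c : deg.ker) : A) = (s ^ i) (c : A) := by
    intro i
    induction i with
    | zero => intro c; rfl
    | succ i ih =>
      intro c
      rw [pow_succ', pow_succ']
      change s (((s' ^ i) c : deg.ker) : A) = s ((s ^ i) (c : A))
      rw [ih]
  have hs'n : ∀ c : deg.ker, ((nm s' l c : deg.ker) : A) = nm s l (c : A) := by
    intro c
    rw [nm_apply, nm_apply, AddSubgroup.val_finsetSum]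
    exact Finset.sum_congr rfl fun i _ => hs'i i c
  have hs'l : s' ^ l = 1 := by
    ext c
    rw [hs'i, hs]
    rfl
  have h' : ∀ c : deg.ker, s' c = c → ∃ c', c = nm s' l c' := by
    intro c hc
    obtain ⟨c', hc'⟩ := h (c : A) (congrArg Subtype.val hc)
    have h1 : deg c' = 0 := by
      have h2 := c.2
      rw [AddMonoidHom.mem_ker, hc', hdn] at h2
      have h3 : ((l : ℕ) : ℤ) ≠ 0 := by exact_mod_cast (by omega : l ≠ 0)
      exact (mul_eq_zero.1 h2).resolve_left h3
    refine ⟨⟨c', h1⟩, Subtype.ext ?_⟩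
    rw [hs'n]
    exact hc'
  have h0 : s c - c ∈ deg.ker := by
    rw [AddMonoidHom.mem_ker, map_sub, hdeg, sub_self]
  obtain ⟨c₀, hc₀⟩ := ker_nm hs'l h' ⟨s c - c, h0⟩ (by
    apply Subtype.ext
    rw [hs'n]
    exact DFunLike.congr_fun (nm_mul_sub_one hs) c)
  have hc₀' : s c - c = s (c₀ : A) - c₀ := congrArg Subtype.val hc₀
  obtain ⟨c', hc'⟩ := h (c - c₀) (by
    rw [map_sub]
    have : s c = c + (s (c₀ : A) - c₀) := by rw [← hc₀']; abel
    rw [this]
    abel)
  have h5 : (m : ℤ) = l * deg c' := by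
    rw [← hdn, ← hc', map_sub, hc, AddMonoidHom.mem_ker.1 c₀.2, sub_zero]
  have h6 : 0 < deg c' := by
    by_contra hneg
    push Not at hneg
    have : (l : ℤ) * deg c' ≤ 0 := mul_nonpos_of_nonneg_of_nonpos (by positivity) hneg
    omega
  have h7 : (deg c').toNat < m := by
    have : (2 : ℤ) * deg c' ≤ l * deg c' := by
      apply mul_le_mul_of_nonneg_right _ h6.le
      exact_mod_cast hl
    omega
  exact Nat.find_min hex h7 ⟨by omega, c', by omega⟩

end BDA
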