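import Pool.Agent.Helper63.BD.Ext

/-!
# Row A3 of BD: infinitely many places of degree prime to `l`
-/

set_option autoImplicit false

namespace ZC

universe u

open PCl Polynomial BDA

variable {K E : Type u} [Field K] [Field E] [Algebra K E]

/-- Weak approximation, with a precision for every place. -/
theorem exists_approx_each (hE : IsCurveField K E) (T : Finset (Place K E)) (y z : Place K E → E)
    (hz : ∀ w ∈ T, z w ≠ 0) : ∃ x : E, ∀ w ∈ T, (x - y w) / z w ∈ w.A := by
  classical
  let oA : ValuationSubring E → E → ℤ := fun A =>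
    if h : ∃ w ∈ T, w.A = A then h.choose.ord else 0
  let yA : ValuationSubring E → E := fun A => if h : ∃ w ∈ T, w.A = A then y h.choose else 0
  let zA : ValuationSubring E → E := fun A => if h : ∃ w ∈ T, w.A = A then z h.choose else 0
  have hch : ∀ w ∈ T, ∀ h : ∃ w' ∈ T, w'.A = w.A, h.choose = w := fun w _ h =>
    Place.ext_A h.choose_spec.2
  have hoA : ∀ A ∈ T.image Place.A, IsOrd A (oA A) := by
    intro A hA
    obtain ⟨w, hw, rfl⟩ := Finset.mem_image.1 hA
    have hex : ∃ w' ∈ T, w'.A = w.A := ⟨w, hw, rfl⟩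
    simp only [oA, dif_pos hex, hch w hw hex]
    exact w.isOrd_of hE.hRel
  have hzA : ∀ A ∈ T.image Place.A, zA A ≠ 0 := by
    intro A hA
    obtain ⟨w, hw, rfl⟩ := Finset.mem_image.1 hA
    have hex : ∃ w' ∈ T, w'.A = w.A := ⟨w, hw, rfl⟩
    simp only [zA, dif_pos hex, hch w hw hex]
    exact hz w hw
  obtain ⟨x, hx⟩ := approx oA (T.image Place.A) hoA yA zA hzA
  refine ⟨x, fun w hw => ?_⟩
  have h1 := hx w.A (Finset.mem_image_of_mem _ hw)
  have hex : ∃ w' ∈ T, w'.A = w.A := ⟨w, hw, rfl⟩
  simp only [yA, zA, dif_pos hex, hch w hw hex] at h1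
  exact h1

/-- Functions with prescribed orders at finitely many places. -/
theorem exists_ord_eq (hE : IsCurveField K E) (T : Finset (Place K E)) (n : Place K E → ℤ) :
    ∃ f : E, f ≠ 0 ∧ ∀ w ∈ T, w.ord f = n w := by
  classical
  rcases T.eq_empty_or_nonempty with rfl | hT
  · exact ⟨1, one_ne_zero, fun w hw => absurd hw (Finset.notMem_empty w)⟩
  have ho : ∀ w : Place K E, IsOrd w.A w.ord := fun w => w.isOrd_of hE.hRel
  choose y hy0 hy using fun w : Place K E => (ho w).exists_eq (n w)
  choose z hz0 hz using fun w : Place K E => (ho w).exists_eq (n w + 1)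
  obtain ⟨x, hx⟩ := exists_approx_each hE T y z fun w _ => hz0 w
  have key : ∀ w ∈ T, x ≠ 0 ∧ w.ord x = n w := by
    intro w hw
    have h1 := hx w hw
    by_cases hxy : x - y w = 0
    · have h2 : x = y w := sub_eq_zero.1 hxy
      rw [h2]
      exact ⟨hy0 w, hy w⟩
    · have h2 := ((ho w).nonneg _ (div_ne_zero hxy (hz0 w))).2 h1
      rw [(ho w).div hxy (hz0 w), hz] at h2
      have hx0 : x ≠ 0 := by
        rintro rfl
        have h3 : (0 : E) - y w = (algebraMap K E (-1)) * y w := by simp
        rw [h3, (ho w).mul _ _ (by simp) (hy0 w), w.o_const (ho w) (by simp), hy] at h2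
        omega
      refine ⟨hx0, ?_⟩
      have hneg : w.ord (-(x - y w)) = w.ord (x - y w) := by
        have h3 : -(x - y w) = (algebraMap K E (-1)) * (x - y w) := by simp
        rw [h3, (ho w).mul _ _ (by simp) hxy, w.o_const (ho w) (by simp), zero_add]
      have h4 := (ho w).min_le_add (hy0 w) hxy (by rwa [add_sub_cancel])
      rw [add_sub_cancel, hy] at h4
      have h5 := (ho w).min_le_add hx0 (neg_ne_zero.2 hxy) (by
        have : x + -(x - y w) = y w := by ring
        rw [this]
        exact hy0 w)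
      have h6 : x + -(x - y w) = y w := by ring
      rw [h6, hy, hneg] at h5
      rcases min_le_iff.1 h4 with h | h <;> rcases min_le_iff.1 h5 with h' | h' <;> omega
  obtain ⟨w, hw⟩ := hT
  exact ⟨x, (key w hw).1, fun w hw => (key w hw).2⟩

/-- A curve over a finite field `F` has infinitely many places of degree prime to `l`, if `F` is
algebraically closed in its function field. -/
theorem exists_place_coprime_notMem {F E : Type u} [Field F] [Finite F] [Field E] [Algebra F E]
    (hE : IsCurveField F E) (hc : ∀ x : E, IsAlgebraic F x → x ∈ (algebraMap F E).range)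
    {l : ℕ} (hl : l.Prime) {T : Set (Place F E)} (hT : T.Finite) :
    ∃ w : Place F E, w ∉ T ∧ ¬ l ∣ w.deg := by
  classical
  by_contra hall
  push Not at hall
  obtain ⟨w₀, hw₀⟩ := exists_place_coprime hE hc hl
  have hw₀T : w₀ ∈ T := by
    by_contra h
    exact hw₀ (hall w₀ h)
  obtain ⟨f, hf0, hf⟩ := exists_ord_eq hE hT.toFinset fun w => if w = w₀ then 1 else 0
  have h1 := degDiv_divOf hE hf0
  set S := hT.toFinset ∪ (Place.finite_ord hE.hRel f).toFinset with hS
  rw [degDiv_eq_sum _ S (fun w hw => by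
    rw [hS, Finset.mem_union]
    right
    rw [Set.Finite.mem_toFinset]
    rwa [divOf_apply] at hw)] at h1
  have hw₀S : w₀ ∈ S := Finset.mem_union_left _ (hT.mem_toFinset.2 hw₀T)
  rw [← Finset.add_sum_erase S _ hw₀S, divOf_apply, hf w₀ (hT.mem_toFinset.2 hw₀T), if_pos rfl,
    one_mul] at h1
  have h2 : (l : ℤ) ∣ ∑ w ∈ S.erase w₀, divOf hE f w * (w.deg : ℤ) := by
    apply Finset.dvd_sum
    intro w hw
    rw [Finset.mem_erase] at hw
    by_cases hwT : w ∈ T
    · rw [divOf_apply, hf w (hT.mem_toFinset.2 hwT), if_neg hw.1, zero_mul]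
      exact dvd_zero _
    · exact Dvd.dvd.mul_left (Int.natCast_dvd_natCast.2 (hall w hwT)) _
  have h3 : (l : ℤ) ∣ (w₀.deg : ℤ) := by
    have h4 : (w₀.deg : ℤ) = -∑ w ∈ S.erase w₀, divOf hE f w * (w.deg : ℤ) := by linarith
    rw [h4]
    exact (dvd_neg).2 h2
  exact hw₀ (Int.natCast_dvd_natCast.1 h3)

end ZC
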