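import Pool.Agent.Helper63.BD.Plane
import Pool.Agent.Helper71.BD.Plane

/-!
# Row A3 of BD, in the form used by row A2
-/

set_option autoImplicit false

namespace ZC

universe u

/-- Points on absolutely irreducible plane curves over `F^(l)`. -/
theorem planePAC_of_primeClosed {l : ℕ} (hl : l.Prime) {F : Type u} [Field F]
    (hF : PrimeClosed l F) : BD.PlanePAC F := by
  intro G u v r h hG _ _ hirr hh
  exact planePts_of_primeClosed hl hF G h hG hirr hh

end ZC
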