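import Pool.Agent.Helper63.BD.Riemann

/-!
# Row A3 of BD: the divisor class group of a curve over a finite field

The group of classes of degree zero is finite.
-/

set_option autoImplicit false

namespace ZC

universe u

open PCl Polynomial

variable {K E : Type u} [Field K] [Field E] [Algebra K E]

/-- The divisor of a function. -/
noncomputable def divOf (hE : IsCurveField K E) (g : E) : Place K E →₀ ℤ :=
  Finsupp.ofSupportFinite (fun w => w.ord g) (Place.finite_ord hE.hRel g)

theorem divOf_apply (hE : IsCurveField K E) (g : E) (w : Place K E) :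
    divOf hE g w = w.ord g := rfl

theorem divOf_mul (hE : IsCurveField K E) {g h : E} (hg : g ≠ 0) (hh : h ≠ 0) :
    divOf hE (g * h) = divOf hE g + divOf hE h := by
  ext w
  rw [Finsupp.add_apply, divOf_apply, divOf_apply, divOf_apply,
    (w.isOrd_of hE.hRel).mul g h hg hh]

theorem divOf_one (hE : IsCurveField K E) : divOf hE (1 : E) = 0 := by
  ext w
  rw [Finsupp.zero_apply, divOf_apply, (w.isOrd_of hE.hRel).one]

theorem divOf_inv (hE : IsCurveField K E) {g : E} (hg : g ≠ 0) :
    divOf hE g⁻¹ = -divOf hE g := by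
  ext w
  rw [Finsupp.neg_apply, divOf_apply, divOf_apply, (w.isOrd_of hE.hRel).inv hg]

theorem divOf_div (hE : IsCurveField K E) {g h : E} (hg : g ≠ 0) (hh : h ≠ 0) :
    divOf hE (g / h) = divOf hE g - divOf hE h := by
  rw [div_eq_mul_inv, divOf_mul hE hg (inv_ne_zero hh), divOf_inv hE hh, sub_eq_add_neg]

theorem divOf_prod (hE : IsCurveField K E) {ι : Type*} (s : Finset ι) (f : ι → E)
    (hf : ∀ i ∈ s, f i ≠ 0) : divOf hE (∏ i ∈ s, f i) = ∑ i ∈ s, divOf hE (f i) := by
  classical
  induction s using Finset.induction_on with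
  | empty => rw [Finset.prod_empty, Finset.sum_empty, divOf_one]
  | insert i s hi ih =>
    rw [Finset.prod_insert hi, Finset.sum_insert hi, divOf_mul hE
      (hf i (Finset.mem_insert_self _ _))
      (Finset.prod_ne_zero_iff.2 fun j hj => hf j (Finset.mem_insert_of_mem hj)),
      ih fun j hj => hf j (Finset.mem_insert_of_mem hj)]

theorem degDiv_divOf (hE : IsCurveField K E) {g : E} (hg : g ≠ 0) :
    degDiv K E (divOf hE g) = 0 := by
  classical
  rw [degDiv_eq_sum _ (Place.finite_ord hE.hRel g).toFinset (fun w hw => by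
    rw [Set.Finite.mem_toFinset]
    rwa [divOf_apply] at hw)]
  simp only [divOf_apply]
  exact sum_ord_deg_of hE (fun w => w.ord) (fun w => w.isOrd_of hE.hRel) (Place.dvr hE)
    (Place.finite_residue hE) (fun z _ => Place.finite_ord hE.hRel z) hg _
    (fun w hw => by
      rw [Set.Finite.mem_toFinset]
      exact hw)

/-- The divisors of functions. -/
def prinDiv (hE : IsCurveField K E) : AddSubgroup (Place K E →₀ ℤ) where
  carrier := {D | ∃ g : E, g ≠ 0 ∧ D = divOf hE g}
  add_mem' := by
    rintro _ _ ⟨g, hg, rfl⟩ ⟨h, hh, rfl⟩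
    exact ⟨g * h, mul_ne_zero hg hh, (divOf_mul hE hg hh).symm⟩
  zero_mem' := ⟨1, one_ne_zero, (divOf_one hE).symm⟩
  neg_mem' := by
    rintro _ ⟨g, hg, rfl⟩
    exact ⟨g⁻¹, inv_ne_zero hg, (divOf_inv hE hg).symm⟩

theorem mem_prinDiv (hE : IsCurveField K E) (D : Place K E →₀ ℤ) :
    D ∈ prinDiv hE ↔ ∃ g : E, g ≠ 0 ∧ D = divOf hE g := Iff.rfl

/-- The divisor class group. -/
abbrev PicE (hE : IsCurveField K E) : Type u := (Place K E →₀ ℤ) ⧸ prinDiv hE

/-- The degree of a divisor class. -/
noncomputable def degPic (hE : IsCurveField K E) : PicE hE →+ ℤ :=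
  QuotientAddGroup.lift (prinDiv hE) (degDiv K E) (by
    rintro _ ⟨g, hg, rfl⟩
    exact degDiv_divOf hE hg)

theorem degPic_mk (hE : IsCurveField K E) (D : Place K E →₀ ℤ) :
    degPic hE (D : PicE hE) = degDiv K E D := rfl

section Finite

variable [Finite K]

theorem finite_places_deg (hE : IsCurveField K E) (B : ℕ) :
    {w : Place K E | w.deg ≤ B}.Finite := by
  obtain ⟨t, ht, hf⟩ := id hE
  have h1 := (finite_places hE.hrel ht (Nat.card K ^ B)).preimage
    (f := fun w : Place K E => w.A) (Function.Injective.injOn fun v w h => Place.ext_A h)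
  refine h1.subset fun w hw => ?_
  refine ⟨w.ne_top, ?_⟩
  rw [w.card_res hE]
  exact Nat.pow_le_pow_right Nat.card_pos hw

theorem finite_eff_deg (hE : IsCurveField K E) (B : ℤ) :
    {D : Place K E →₀ ℤ | (∀ w, 0 ≤ D w) ∧ degDiv K E D ≤ B}.Finite := by
  classical
  have h1 := finite_places_deg hE B.toNat
  refine (Finset.finite_toSet (h1.toFinset.finsupp fun _ => Finset.Icc (0 : ℤ) B)).subset ?_
  rintro D ⟨hD, hDB⟩
  have hkey : ∀ w, D w * (w.deg : ℤ) ≤ B := by
    intro w
    refine le_trans ?_ hDB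
    by_cases hw : w ∈ D.support
    · rw [degDiv_eq_sum D D.support fun w hw => Finsupp.mem_support_iff.2 hw]
      exact Finset.single_le_sum (f := fun w => D w * (w.deg : ℤ))
        (fun v _ => mul_nonneg (hD v) (by positivity)) hw
    · rw [Finsupp.notMem_support_iff.1 hw, zero_mul,
        degDiv_eq_sum D D.support fun w hw => Finsupp.mem_support_iff.2 hw]
      exact Finset.sum_nonneg fun v _ => mul_nonneg (hD v) (by positivity)
  have hdeg : ∀ w : Place K E, 1 ≤ (w.deg : ℤ) := fun w => by
    have := w.deg_pos hE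
    omega
  rw [Finset.mem_coe, Finset.mem_finsupp_iff]
  constructor
  · intro w hw
    rw [Set.Finite.mem_toFinset]
    have h2 := hkey w
    have h3 : 1 ≤ D w := by
      have := hD w
      have := Finsupp.mem_support_iff.1 hw
      omega
    have h4 : (w.deg : ℤ) ≤ B := by nlinarith [hdeg w]
    rw [Set.mem_ofPred_eq]
    omega
  · intro w _
    rw [Finset.mem_Icc]
    refine ⟨hD w, ?_⟩
    have h2 := hkey w
    have h3 := hD w
    nlinarith [hdeg w]

/-- **The group of divisor classes of degree zero is finite.** -/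
theorem finite_pic0 (hE : IsCurveField K E) : Finite (degPic hE).ker := by
  classical
  obtain ⟨C, hC, hR⟩ := riemann hE
  have h1 := finite_eff_deg hE (degDiv K E C)
  have h2 : ((fun D : Place K E →₀ ℤ => ((D : PicE hE) - (C : PicE hE))) ''
      {D : Place K E →₀ ℤ | (∀ w, 0 ≤ D w) ∧ degDiv K E D ≤ degDiv K E C}).Finite := h1.image _
  refine Set.Finite.to_subtype (s := ((degPic hE).ker : Set (PicE hE))) (h2.subset ?_)
  intro c hc
  obtain ⟨D, rfl⟩ := QuotientAddGroup.mk_surjective c
  have hD : degDiv K E D = 0 := hc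
  obtain ⟨y, hy0, hy⟩ := hR D hD.ge
  refine ⟨D + C + divOf hE y, ⟨fun w => ?_, ?_⟩, ?_⟩
  · rw [Finsupp.add_apply, Finsupp.add_apply, divOf_apply]
    exact hy w
  · rw [map_add, map_add, hD, degDiv_divOf hE hy0]
    simp
  · change ((D + C + divOf hE y : Place K E →₀ ℤ) : PicE hE) - (C : PicE hE) = (D : PicE hE)
    have h3 : ((divOf hE y : Place K E →₀ ℤ) : PicE hE) = 0 := by
      rw [QuotientAddGroup.eq_zero_iff]
      exact ⟨y, hy0, rfl⟩
    rw [QuotientAddGroup.mk_add, QuotientAddGroup.mk_add, h3]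
    abel

end Finite

end ZC
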