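import Mathlib

/-!
# BD: the fields `F^(l)` and the existence of points on absolutely irreducible plane curves
-/

set_option autoImplicit false

namespace ZC

universe u

open Polynomial

/-- A field `F` which is a union of finite fields and over which every irreducible polynomial of
degree prime to `l` is linear. -/
def PrimeClosed (l : ℕ) (F : Type u) [Field F] : Prop :=
  (∀ s : Finset F, ∃ K : Subfield F, Finite K ∧ (s : Set F) ⊆ (K : Set F)) ∧
    ∀ g : F[X], Irreducible g → ¬ l ∣ g.natDegree → g.natDegree = 1

/-- Absolutely irreducible plane curves have points outside a given finite set. -/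
def PlanePts (F : Type u) [Field F] : Prop :=
  ∀ (G : F[X][X]) (h : F[X]), G.Monic →
    Irreducible (G.map (mapRingHom (algebraMap F (AlgebraicClosure F)))) → h ≠ 0 →
    ∃ t y : F, (G.map (evalRingHom t)).eval y = 0 ∧ h.eval t ≠ 0

end ZC
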