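import Pool.Agent.Helper63.BD.Many
import Pool.Agent.Helper63.BD.PlaneDefs

/-!
# Row A3 of BD: absolutely irreducible plane curves over `F^(l)` have points
-/

set_option autoImplicit false

namespace ZC

universe u

open PCl Polynomial BDA

/-- Over a field where irreducible polynomials of degree prime to `l` are linear, polynomials of
degree prime to `l` have roots. -/
theorem exists_root_of_not_dvd {l : ℕ} {F : Type*} [Field F]
    (hF : ∀ g : F[X], Irreducible g → ¬ l ∣ g.natDegree → g.natDegree = 1) (f : F[X])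
    (hf0 : f ≠ 0) (hd : ¬ l ∣ f.natDegree) : ∃ x, f.eval x = 0 := by
  induction hn : f.natDegree using Nat.strong_induction_on generalizing f with
  | _ n ih =>
    have hpos : 0 < f.natDegree := by
      rcases Nat.eq_zero_or_pos f.natDegree with h | h
      · rw [h] at hd
        exact absurd (dvd_zero l) hd
      · exact h
    obtain ⟨g, hg, f', rfl⟩ := exists_irreducible_of_natDegree_pos hpos
    have hg0 := hg.ne_zero
    have hf'0 : f' ≠ 0 := right_ne_zero_of_mul hf0
    have hmul := natDegree_mul hg0 hf'0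
    by_cases hlg : l ∣ g.natDegree
    · have h1 : ¬ l ∣ f'.natDegree := by
        intro h
        apply hd
        rw [hmul]
        exact dvd_add hlg h
      have h2 : 0 < g.natDegree := hg.natDegree_pos
      obtain ⟨x, hx⟩ := ih f'.natDegree (by omega) f' hf'0 h1 rfl
      exact ⟨x, by rw [eval_mul, hx, mul_zero]⟩
    · have h1 := hF g hg hlg
      obtain ⟨x, hx⟩ := exists_root_of_degree_eq_one (degree_eq_iff_natDegree_eq hg0 |>.2 h1)
      exact ⟨x, by rw [eval_mul, hx.eq_zero, zero_mul]⟩

/-- The constant field of an absolutely irreducible plane curve. -/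
theorem closed_of_abs_irreducible {F W : Type u} [Field F] [Field W] [IsAlgClosed W] [Algebra F W]
    {G : F[X][X]} (hG : G.Monic) (hirr : Irreducible (G.map (mapRingHom (algebraMap F W))))
    {P : (RatFunc F)[X]} (hP : P = G.map (algebraMap F[X] (RatFunc F)))
    [hfact : Fact (Irreducible P)] (x : AdjoinRoot P) (hx : IsAlgebraic F x) :
    x ∈ (algebraMap F (AdjoinRoot P)).range := by
  classical
  -- the geometric curve
  set GW : W[X][X] := G.map (mapRingHom (algebraMap F W)) with hGW
  have hGWm : GW.Monic := hG.map _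
  set Q := GW.map (algebraMap W[X] (RatFunc W)) with hQ
  have hQm : Q.Monic := hGWm.map _
  have hQi : Irreducible Q := (hGWm.irreducible_iff_irreducible_map_fraction_map).1 hirr
  have hfact' : Fact (Irreducible Q) := ⟨hQi⟩
  set g : F[X] →+* RatFunc W :=
    (algebraMap W[X] (RatFunc W)).comp (mapRingHom (algebraMap F W)) with hg
  have hginj : Function.Injective g :=
    (IsFractionRing.injective W[X] (RatFunc W)).comp
      (Polynomial.map_injective _ (algebraMap F W).injective)
  set φ : RatFunc F →+* RatFunc W := IsFractionRing.lift hginj with hφ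
  have hφg : ∀ f : F[X], φ (algebraMap F[X] (RatFunc F) f) = g f := fun f =>
    IsFractionRing.lift_algebraMap hginj f
  have hPQ : P.map φ = Q := by
    rw [hP, hQ, hGW, Polynomial.map_map, Polynomial.map_map]
    congr 1
    ext f
    · exact hφg _
    · exact hφg _
  set ψ : AdjoinRoot P →+* AdjoinRoot Q := AdjoinRoot.lift ((AdjoinRoot.of Q).comp φ)
    (AdjoinRoot.root Q) (by
      rw [← eval₂_map, hPQ, AdjoinRoot.eval₂_root]) with hψ
  have hψmk : ∀ f : (RatFunc F)[X], ψ (AdjoinRoot.mk P f) = AdjoinRoot.mk Q (f.map φ) := by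
    intro f
    rw [hψ, AdjoinRoot.lift_mk, ← eval₂_map]
    exact AdjoinRoot.aeval_eq (f.map φ)
  -- `ψ x` is a constant
  have hC : ∀ c : F, ψ (algebraMap F (AdjoinRoot P) c) =
      algebraMap W (AdjoinRoot Q) (algebraMap F W c) := by
    intro c
    have h1 : algebraMap F (AdjoinRoot P) c =
        AdjoinRoot.mk P (C (algebraMap F[X] (RatFunc F) (C c))) := by
      rw [IsScalarTower.algebraMap_apply F (RatFunc F) (AdjoinRoot P),
        IsScalarTower.algebraMap_apply F F[X] (RatFunc F)]
      rfl
    have h2 : algebraMap W (AdjoinRoot Q) (algebraMap F W c) =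
        AdjoinRoot.mk Q (C (algebraMap W[X] (RatFunc W) (C (algebraMap F W c)))) := by
      rw [IsScalarTower.algebraMap_apply W (RatFunc W) (AdjoinRoot Q),
        IsScalarTower.algebraMap_apply W W[X] (RatFunc W)]
      rfl
    rw [h1, h2, hψmk, map_C, hφg, hg, RingHom.comp_apply, coe_mapRingHom, map_C]
  have halg : IsAlgebraic W (ψ x) := by
    obtain ⟨f, hf0, hf⟩ := hx
    refine ⟨f.map (algebraMap F W), (Polynomial.map_ne_zero_iff (algebraMap F W).injective).2 hf0,
      ?_⟩
    have h1 := congrArg ψ hf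
    rw [map_zero, aeval_def, hom_eval₂] at h1
    rw [aeval_def, eval₂_map]
    rw [← h1]
    have h2 : (algebraMap W (AdjoinRoot Q)).comp (algebraMap F W) =
        ψ.comp (algebraMap F (AdjoinRoot P)) := by
      ext c
      exact (hC c).symm
    rw [h2]
  obtain ⟨ω, hω⟩ : ∃ ω : W, algebraMap W (AdjoinRoot Q) ω = ψ x :=
    minpoly.mem_range_of_degree_eq_one W (ψ x)
      (IsAlgClosed.degree_eq_one_of_irreducible W (minpoly.irreducible halg.isIntegral))
  -- `x` is a polynomial in `y` of low degree
  obtain ⟨f₀, rfl⟩ := AdjoinRoot.mk_surjective x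
  have hPm : P.Monic := by
    rw [hP]
    exact hG.map _
  set f := f₀ %ₘ P with hf
  have hmk : AdjoinRoot.mk P f₀ = AdjoinRoot.mk P f := by
    conv_lhs => rw [← modByMonic_add_div f₀ P]
    rw [map_add, map_mul, AdjoinRoot.mk_self, zero_mul, add_zero]
  have hdeg : f.degree < P.degree := degree_modByMonic_lt f₀ hPm
  have hPdeg : P.degree = Q.degree := by
    rw [← hPQ]
    exact (degree_map P φ).symm
  have hω' : AdjoinRoot.mk Q (C (algebraMap W[X] (RatFunc W) (C ω))) =
      algebraMap W (AdjoinRoot Q) ω := by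
    rw [IsScalarTower.algebraMap_apply W (RatFunc W) (AdjoinRoot Q),
      IsScalarTower.algebraMap_apply W W[X] (RatFunc W)]
    rfl
  have hz : AdjoinRoot.mk Q (f.map φ - C (algebraMap W[X] (RatFunc W) (C ω))) = 0 := by
    rw [map_sub, ← hψmk, ← hmk, hω', hω, sub_self]
  have hpos : 0 < Q.degree := degree_pos_of_irreducible hQi
  have hz' : f.map φ - C (algebraMap W[X] (RatFunc W) (C ω)) = 0 := by
    rw [AdjoinRoot.mk_eq_zero] at hz
    refine eq_zero_of_dvd_of_degree_lt hz ?_
    refine lt_of_le_of_lt (degree_sub_le _ _) (max_lt ?_ ?_)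
    · rw [degree_map, ← hPdeg]
      exact hdeg
    · exact lt_of_le_of_lt degree_C_le hpos
  have hf0 : f = C (f.coeff 0) := by
    apply eq_C_of_natDegree_eq_zero
    rw [← natDegree_map φ, sub_eq_zero.1 hz', natDegree_C]
  rw [hmk] at hx ⊢
  rw [hf0] at hx ⊢
  have hx' : IsAlgebraic F (algebraMap (RatFunc F) (AdjoinRoot P) (f.coeff 0)) := hx
  rw [isAlgebraic_algebraMap_iff (algebraMap (RatFunc F) (AdjoinRoot P)).injective] at hx'
  by_cases hc : ∃ c, f.coeff 0 = RatFunc.C c
  · obtain ⟨c, hc⟩ := hc
    refine ⟨c, ?_⟩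
    rw [hc, IsScalarTower.algebraMap_apply F (RatFunc F) (AdjoinRoot P)]
    rfl
  · exact absurd hx' (RatFunc.transcendental_of_ne_C _ hc)

/-- A finite extension of degree prime to `l` of a subfield embeds. -/
theorem nonempty_algHom_of_not_dvd {l : ℕ} {K F L : Type*} [Field K] [Field F] [Field L]
    [Algebra K F] [Algebra K L] [FiniteDimensional K L]
    (hF : ∀ g : F[X], Irreducible g → ¬ l ∣ g.natDegree → g.natDegree = 1)
    (hd : ¬ l ∣ Module.finrank K L) : Nonempty (L →ₐ[K] F) := by
  refine Field.nonempty_algHom_of_exists_root fun x => ?_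
  have hint : IsIntegral K x := Algebra.IsIntegral.isIntegral x
  have h0 : minpoly K x ≠ 0 := minpoly.ne_zero hint
  obtain ⟨y, hy⟩ := exists_root_of_not_dvd hF ((minpoly K x).map (algebraMap K F))
    ((Polynomial.map_ne_zero_iff (algebraMap K F).injective).2 h0) (by
      rw [natDegree_map]
      intro h
      apply hd
      refine h.trans ?_
      rw [← IntermediateField.adjoin.finrank hint]
      exact Dvd.intro _ (Module.finrank_mul_finrank K (IntermediateField.adjoin K {x}) L))
  exact ⟨y, by rw [aeval_def, ← eval_map]; exact hy⟩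

/-- **Absolutely irreducible plane curves over `F^(l)` have infinitely many points.** -/
theorem planePts_of_primeClosed {l : ℕ} (hl : l.Prime) {F : Type u} [Field F]
    (hF : PrimeClosed l F) : PlanePts F := by
  classical
  intro G h hGm hGi hh
  -- a finite field of definition
  set S : Finset F := (G.support.biUnion fun i => (G.coeff i).support.image (G.coeff i).coeff) ∪
    h.support.image h.coeff with hS
  obtain ⟨K, hKfin, hK⟩ := hF.1 S
  have hcoefG : ∀ i j, (G.coeff i).coeff j ∈ K := by
    intro i j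
    by_cases hi : i ∈ G.support
    · by_cases hj : j ∈ (G.coeff i).support
      · apply hK
        rw [hS, Finset.mem_coe, Finset.mem_union]
        left
        rw [Finset.mem_biUnion]
        exact ⟨i, hi, Finset.mem_image_of_mem _ hj⟩
      · rw [notMem_support_iff.1 hj]
        exact K.zero_mem
    · rw [notMem_support_iff.1 hi, coeff_zero]
      exact K.zero_mem
  have hcoefh : ∀ j, h.coeff j ∈ K := by
    intro j
    by_cases hj : j ∈ h.support
    · apply hK
      rw [hS, Finset.mem_coe, Finset.mem_union]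
      right
      exact Finset.mem_image_of_mem _ hj
    · rw [notMem_support_iff.1 hj]
      exact K.zero_mem
  have hlift : ∀ f : F[X], (∀ j, f.coeff j ∈ K) → f ∈ lifts (algebraMap K F) := by
    intro f hf
    rw [lifts_iff_coeff_lifts]
    intro j
    exact ⟨⟨f.coeff j, hf j⟩, rfl⟩
  obtain ⟨h₀, hh₀⟩ := (mem_lifts h).1 (hlift h hcoefh)
  have hGl : G ∈ lifts (mapRingHom (algebraMap K F)) := by
    rw [lifts_iff_coeff_lifts]
    intro i
    obtain ⟨f, hf⟩ := (mem_lifts _).1 (hlift (G.coeff i) (hcoefG i))
    exact ⟨f, hf⟩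
  obtain ⟨G₀, hG₀, -, hG₀m⟩ := lifts_and_natDegree_eq_and_monic hGl hGm
  have hh₀0 : h₀ ≠ 0 := by
    rintro rfl
    apply hh
    rw [← hh₀, Polynomial.map_zero]
  -- absolute irreducibility
  have hirr : Irreducible (G₀.map (mapRingHom (algebraMap K (AlgebraicClosure F)))) := by
    have h1 : mapRingHom (algebraMap K (AlgebraicClosure F)) =
        (mapRingHom (algebraMap F (AlgebraicClosure F))).comp (mapRingHom (algebraMap K F)) := by
      rw [mapRingHom_comp]
      rfl
    rw [h1, ← Polynomial.map_map, hG₀]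
    exact hGi
  have hG₀i : Irreducible G₀ := hG₀m.irreducible_of_irreducible_map _ _ hirr
  set P := G₀.map (algebraMap K[X] (RatFunc K)) with hP
  have hPi : Irreducible P := (hG₀m.irreducible_iff_irreducible_map_fraction_map).1 hG₀i
  have hfact : Fact (Irreducible P) := ⟨hPi⟩
  have hclosed := closed_of_abs_irreducible (W := AlgebraicClosure F) hG₀m hirr hP
  have hfd : FiniteDimensional (RatFunc K) (AdjoinRoot P) :=
    (AdjoinRoot.powerBasis hPi.ne_zero).finite
  have hE : IsCurveField K (AdjoinRoot P) :=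
    isCurveField_of_finite (E := RatFunc K) (isCurveField_ratFunc (K := K) (L := K))
  -- the coordinates
  set t : AdjoinRoot P := algebraMap (RatFunc K) (AdjoinRoot P) RatFunc.X with ht
  set y : AdjoinRoot P := AdjoinRoot.root P with hy
  have haev : ∀ f : K[X], aeval t f =
      algebraMap (RatFunc K) (AdjoinRoot P) (algebraMap K[X] (RatFunc K) f) := by
    intro f
    rw [ht, aeval_algebraMap_apply]
    congr 1
    rw [← RatFunc.algebraMap_X, aeval_algebraMap_apply, aeval_X_left_apply]
  have hht : aeval t h₀ ≠ 0 := by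
    rw [haev]
    intro h1
    apply hh₀0
    have h2 := (map_eq_zero_iff _ (algebraMap (RatFunc K) (AdjoinRoot P)).injective).1 h1
    exact (map_eq_zero_iff _ (IsFractionRing.injective K[X] (RatFunc K))).1 h2
  have ht0 : t ≠ 0 := by
    rw [ht, Ne, map_eq_zero]
    exact RatFunc.X_ne_zero
  obtain ⟨w, hwT, hwd⟩ := exists_place_coprime_notMem hE hclosed hl
    ((Place.finite_ord hE.hRel t).union (Place.finite_ord hE.hRel (aeval t h₀)))
  rw [Set.mem_union, not_or] at hwT
  have ho := w.isOrd_of hE.hRel
  have hwt : w.ord t = 0 := by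
    by_contra hne
    exact hwT.1 hne
  have hwh : w.ord (aeval t h₀) = 0 := by
    by_contra hne
    exact hwT.2 hne
  have htA : t ∈ w.A := (ho.nonneg t ht0).1 hwt.ge
  have htower : IsScalarTower K w.A (AdjoinRoot P) := IsScalarTower.of_algebraMap_eq fun _ => rfl
  set tA : w.A := ⟨t, htA⟩ with htA'
  have haevA : ∀ f : K[X], ((aeval tA f : w.A) : AdjoinRoot P) = aeval t f := fun f =>
    (aeval_algebraMap_apply (AdjoinRoot P) tA f).symm
  -- `y` is integral
  have hyroot : (G₀.map ((aeval tA : K[X] →ₐ[K] w.A) : K[X] →+* w.A)).eval₂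
      (algebraMap w.A (AdjoinRoot P)) y = 0 := by
    rw [eval₂_map]
    have h1 : (algebraMap w.A (AdjoinRoot P)).comp ((aeval tA : K[X] →ₐ[K] w.A) : K[X] →+* w.A) =
        (algebraMap (RatFunc K) (AdjoinRoot P)).comp (algebraMap K[X] (RatFunc K)) := by
      apply RingHom.ext
      intro f
      exact (haevA f).trans (haev f)
    rw [h1, ← eval₂_map, ← hP]
    exact AdjoinRoot.eval₂_root P
  have hyint : IsIntegral w.A y := ⟨_, hG₀m.map _, hyroot⟩
  obtain ⟨yA, hyA⟩ := IsIntegrallyClosed.isIntegral_iff.1 hyint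
  have hyrootA : (G₀.map ((aeval tA : K[X] →ₐ[K] w.A) : K[X] →+* w.A)).eval yA = 0 := by
    apply Subtype.val_injective
    have h1 := hyroot
    rw [← hyA, ← eval₂_id (p := G₀.map ((aeval tA : K[X] →ₐ[K] w.A) : K[X] →+* w.A)) (x := yA)]
      at *
    rw [eval₂_at_apply] at h1
    rw [eval₂_id]
    exact h1
  -- reduction
  set r := IsLocalRing.residue w.A with hr
  have hred : (G₀.map ((aeval (r tA) : K[X] →ₐ[K] w.res) : K[X] →+* w.res)).eval (r yA) = 0 := by
    have h1 : ((aeval (r tA) : K[X] →ₐ[K] w.res) : K[X] →+* w.res) =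
        r.comp ((aeval tA : K[X] →ₐ[K] w.A) : K[X] →+* w.A) := by
      apply RingHom.ext
      intro f
      exact aeval_algebraMap_apply w.res tA f
    rw [h1, ← Polynomial.map_map, eval_map, eval₂_at_apply, hyrootA, map_zero]
  have hhred : aeval (r tA) h₀ ≠ 0 := by
    have h1 : aeval (r tA) h₀ = r (aeval tA h₀) := aeval_algebraMap_apply w.res tA h₀
    rw [h1]
    intro h2
    rw [hr, IsLocalRing.residue_eq_zero_iff] at h2
    have h3 : ((aeval tA h₀ : w.A) : AdjoinRoot P) ∈ w.A.nonunits := by
      rw [w.A.mem_nonunits_iff]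
      exact (w.A.valuation_lt_one_iff _).1 h2
    rw [haevA, ← ho.pos_iff hht, hwh] at h3
    exact lt_irrefl _ h3
  -- the residue field embeds
  have hfdres : FiniteDimensional K w.res := w.finite_residue hE
  obtain ⟨σ⟩ := nonempty_algHom_of_not_dvd hF.2 hwd
  refine ⟨σ (r tA), σ (r yA), ?_, ?_⟩
  · rw [← hG₀, Polynomial.map_map]
    have h1 : (evalRingHom (σ (r tA))).comp (mapRingHom (algebraMap K F)) =
        (σ : w.res →+* F).comp ((aeval (r tA) : K[X] →ₐ[K] w.res) : K[X] →+* w.res) := by
      apply RingHom.ext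
      intro f
      change (f.map (algebraMap K F)).eval (σ (r tA)) = σ (aeval (r tA) f)
      rw [eval_map, ← aeval_def, aeval_algHom_apply]
    rw [h1, ← Polynomial.map_map, eval_map]
    have h2 := congrArg σ hred
    rw [map_zero] at h2
    rw [← h2]
    exact eval₂_at_apply (σ : w.res →+* F) (r yA)
  · rw [← hh₀, eval_map, ← aeval_def, aeval_algHom_apply]
    intro h1
    exact hhred ((map_eq_zero_iff _ σ.toRingHom.injective).1 h1)

end ZC
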