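import Pool.Agent.Helper33.ZC.DegZ

/-!
# Row A3 of BD: a weak form of Riemann's inequality on a curve over any field

Divisors are finitely supported functions on the places.  There is an effective divisor `C` such
that for every divisor `D` of degree at least zero `D + C` is equivalent to an effective divisor.
-/

set_option autoImplicit false

namespace ZC

universe u

open PCl Polynomial

variable {K E : Type u} [Field K] [Field E] [Algebra K E]

/-- The degree of a divisor. -/
noncomputable def degDiv (K E : Type u) [Field K] [Field E] [Algebra K E] :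
    (Place K E →₀ ℤ) →+ ℤ :=
  Finsupp.liftAddHom fun w => AddMonoidHom.mulRight (w.deg : ℤ)

theorem degDiv_single (w : Place K E) (m : ℤ) :
    degDiv K E (Finsupp.single w m) = m * (w.deg : ℤ) := by
  rw [degDiv, Finsupp.liftAddHom_apply_single]
  rfl

theorem degDiv_eq_sum (D : Place K E →₀ ℤ) (T : Finset (Place K E))
    (hT : ∀ w, D w ≠ 0 → w ∈ T) : degDiv K E D = ∑ w ∈ T, D w * (w.deg : ℤ) := by
  rw [degDiv, Finsupp.liftAddHom_apply, Finsupp.sum_of_support_subset _
    (fun w hw => hT w (Finsupp.mem_support_iff.1 hw))]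
  · rfl
  · intro w _
    rw [AddMonoidHom.map_zero]

/-- A polynomial in `t` with zeros of high order at given places where `t` is finite. -/
theorem exists_poly (hE : IsCurveField K E) {t : E} (ht : Transcendental K t)
    (T : Finset (Place K E)) (D : Place K E → ℤ) :
    ∃ g : K[X], g ≠ 0 ∧ ∀ w ∈ T, t ∈ w.A → D w ≤ w.ord (aeval t g) := by
  classical
  have haux : ∀ (w : Place K E) (g : K[X]), t ∈ w.A → aeval t g ∈ w.A := by
    intro w g htw
    have : IsScalarTower K w.A E := IsScalarTower.of_algebraMap_eq fun _ => rfl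
    have h4 : aeval t g = ((aeval (⟨t, htw⟩ : w.A) g : w.A) : E) :=
      aeval_algebraMap_apply E (⟨t, htw⟩ : w.A) g
    rw [h4]
    exact SetLike.coe_mem _
  induction T using Finset.induction_on with
  | empty => exact ⟨1, one_ne_zero, fun w hw => absurd hw (Finset.notMem_empty w)⟩
  | insert v T hv ih =>
    obtain ⟨g, hg0, hg⟩ := ih
    by_cases htv : t ∈ v.A
    · have hfin := v.finite_residue hE
      have hint : IsIntegral K (IsLocalRing.residue v.A ⟨t, htv⟩) :=
        Algebra.IsIntegral.isIntegral _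
      set P := minpoly K (IsLocalRing.residue v.A ⟨t, htv⟩) with hP
      have hP0 : P ≠ 0 := minpoly.ne_zero hint
      have hPt : aeval t P ≠ 0 := aeval_ne ht hP0
      have hgt : aeval t g ≠ 0 := aeval_ne ht hg0
      have hpos : 0 < v.ord (aeval t P) := by
        rw [(v.isOrd_of hE.hRel).pos_iff hPt]
        have : IsScalarTower K v.A E := IsScalarTower.of_algebraMap_eq fun _ => rfl
        have h4 : aeval t P = ((aeval (⟨t, htv⟩ : v.A) P : v.A) : E) :=
          aeval_algebraMap_apply E (⟨t, htv⟩ : v.A) P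
        rw [h4]
        have h5 : aeval (⟨t, htv⟩ : v.A) P ∈ IsLocalRing.maximalIdeal v.A := by
          rw [← IsLocalRing.residue_eq_zero_iff]
          have h6 : IsLocalRing.residue v.A (aeval (⟨t, htv⟩ : v.A) P) =
              aeval (IsLocalRing.residue v.A ⟨t, htv⟩) P :=
            (aeval_algebraMap_apply v.res (⟨t, htv⟩ : v.A) P).symm
          rw [h6]
          exact minpoly.aeval _ _
        rw [v.A.mem_nonunits_iff]
        exact (v.A.valuation_lt_one_iff _).1 h5
      have hord : ∀ w : Place K E, w.ord (aeval t (g * P ^ (D v).toNat)) =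
          w.ord (aeval t g) + (D v).toNat * w.ord (aeval t P) := by
        intro w
        have ho := w.isOrd_of hE.hRel
        rw [map_mul, map_pow, ho.mul _ _ hgt (pow_ne_zero _ hPt), ho.pow hPt]
      refine ⟨g * P ^ (D v).toNat, mul_ne_zero hg0 (pow_ne_zero _ hP0), fun w hw htw => ?_⟩
      rw [hord]
      have ho := w.isOrd_of hE.hRel
      have h1 : 0 ≤ w.ord (aeval t g) := (ho.nonneg _ hgt).2 (haux w g htw)
      have h2 : 0 ≤ w.ord (aeval t P) := (ho.nonneg _ hPt).2 (haux w P htw)
      rcases Finset.mem_insert.1 hw with rfl | hw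
      · have h3 : D w ≤ ((D w).toNat : ℤ) := Int.self_le_toNat _
        nlinarith
      · have h3 := hg w hw htw
        have h4 : (0 : ℤ) ≤ ((D v).toNat : ℤ) * w.ord (aeval t P) := by positivity
        linarith
    · refine ⟨g, hg0, fun w hw htw => ?_⟩
      rcases Finset.mem_insert.1 hw with rfl | hw
      · exact absurd htw htv
      · exact hg w hw htw

/-- **Riemann's inequality**, weak form. -/
theorem riemann (hE : IsCurveField K E) : ∃ C : Place K E →₀ ℤ, (∀ w, 0 ≤ C w) ∧
    ∀ D : Place K E →₀ ℤ, 0 ≤ degDiv K E D →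
      ∃ y : E, y ≠ 0 ∧ ∀ w, 0 ≤ D w + C w + w.ord y := by
  classical
  obtain ⟨t, htr, hft⟩ := id hE
  have ht0 : t ≠ 0 := by
    rintro rfl
    exact htr isAlgebraic_zero
  have htr' : Transcendental K t⁻¹ := by
    intro h
    have := h.inv
    rw [inv_inv] at this
    exact htr this
  obtain ⟨n, hR, hI'⟩ := hE.hfin t⁻¹ htr'
  have hI : Ind K t n := Ind.of_inv ht0 hI'
  have hn : 0 < n := by
    rcases Nat.eq_zero_or_pos n with rfl | h
    · obtain ⟨c, hc0, hc⟩ := hR fun _ => 1
      exfalso
      rw [Fin.sum_univ_one, mul_one] at hc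
      refine aeval_ne htr' (p := c 0) ?_ hc
      intro h
      apply hc0
      funext i
      rw [Fin.fin_one_eq_zero i, h]
      rfl
    · exact h
  have ho : ∀ w : Place K E, IsOrd w.A w.ord := fun w => w.isOrd_of hE.hRel
  have hfa : ∀ z : E, z ≠ 0 → {w : Place K E | w.ord z ≠ 0}.Finite :=
    fun z _ => Place.finite_ord hE.hRel z
  obtain ⟨S, C, hC, hlat⟩ := latticeK (fun w : Place K E => w.ord) ho hfa ht0 hI
  have hCfin : (Function.support fun w => (C w : ℤ)).Finite := by
    refine S.finite_toSet.subset fun w hw => ?_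
    by_contra h
    exact hw (by simp only [hC w h, Nat.cast_zero])
  refine ⟨Finsupp.ofSupportFinite (fun w => (C w : ℤ)) hCfin, fun w => ?_, fun D hD => ?_⟩
  · rw [Finsupp.ofSupportFinite_coe]
    positivity
  obtain ⟨g, hg0, hg⟩ := exists_poly hE htr D.support D
  set h : E := aeval t g with hh
  have hh0 : h ≠ 0 := aeval_ne htr hg0
  have hgA : ∀ w : Place K E, t ∈ w.A → 0 ≤ w.ord h := by
    intro w htw
    rw [(ho w).nonneg _ hh0]
    have : IsScalarTower K w.A E := IsScalarTower.of_algebraMap_eq fun _ => rfl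
    have h4 : aeval t g = ((aeval (⟨t, htw⟩ : w.A) g : w.A) : E) :=
      aeval_algebraMap_apply E (⟨t, htw⟩ : w.A) g
    rw [hh, h4]
    exact SetLike.coe_mem _
  set T0 : Finset (Place K E) := D.support ∪ (hfa h hh0).toFinset with hT0
  set r : ℕ := ∑ w ∈ T0, (D w - w.ord h).toNat with hr
  -- the divisor `D` is at most the divisor of `h` plus `r` times the poles of `t`
  have hle : ∀ w : Place K E, 0 ≤ (r : ℤ) * max (-(w.ord t)) 0 + w.ord h - D w := by
    intro w
    have hmax : 0 ≤ max (-(w.ord t)) 0 := le_max_right _ _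
    by_cases htw : t ∈ w.A
    · have h1 := hgA w htw
      have h2 : D w ≤ w.ord h := by
        by_cases hw : w ∈ D.support
        · exact hg w hw htw
        · rw [Finsupp.notMem_support_iff.1 hw]
          exact h1
      have h3 : (0 : ℤ) ≤ (r : ℤ) * max (-(w.ord t)) 0 := by positivity
      linarith
    · have h1 : w.ord t < 0 := by
        by_contra hneg
        exact htw (((ho w).nonneg t ht0).1 (by omega))
      have h2 : 1 ≤ max (-(w.ord t)) 0 := le_max_of_le_left (by omega)
      have h3 : D w - w.ord h ≤ r := by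
        by_cases hw : w ∈ T0
        · have h4 : (D w - w.ord h).toNat ≤ r :=
            Finset.single_le_sum (f := fun w => (D w - w.ord h).toNat)
              (fun _ _ => Nat.zero_le _) hw
          have h5 := Int.self_le_toNat (D w - w.ord h)
          have h6 : ((D w - w.ord h).toNat : ℤ) ≤ r := by exact_mod_cast h4
          linarith
        · rw [hT0, Finset.mem_union, not_or, Finsupp.notMem_support_iff,
            Set.Finite.mem_toFinset] at hw
          have h4 : w.ord h = 0 := by
            by_contra hne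
            exact hw.2 hne
          rw [hw.1, h4]
          simp
      have h4 : (r : ℤ) ≤ (r : ℤ) * max (-(w.ord t)) 0 := by
        have : (0 : ℤ) ≤ r := by positivity
        nlinarith
      linarith
  set T : Finset (Place K E) := T0 ∪ (hfa t ht0).toFinset ∪ S with hT
  obtain ⟨W, hWf, hWr, hW⟩ := hlat r
  have hnot : ∀ w ∉ T, D w = 0 ∧ w.ord h = 0 ∧ w.ord t = 0 ∧ C w = 0 := by
    intro w hw
    rw [hT, hT0, Finset.mem_union, Finset.mem_union, Finset.mem_union, not_or, not_or, not_or,
      Finsupp.notMem_support_iff, Set.Finite.mem_toFinset, Set.Finite.mem_toFinset] at hw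
    refine ⟨hw.1.1.1, ?_, ?_, hC w hw.2⟩
    · by_contra hne
      exact hw.1.1.2 hne
    · by_contra hne
      exact hw.1.2 hne
  have hdh : ∑ w ∈ T, w.ord h * (w.deg : ℤ) = 0 :=
    sum_ord_deg_of hE (fun w => w.ord) ho (Place.dvr hE) (Place.finite_residue hE) hfa hh0 T
      (fun w hw => by
        by_contra hwT
        exact hw (hnot w hwT).2.1)
  have hdD : ∑ w ∈ T, D w * (w.deg : ℤ) = degDiv K E D :=
    (degDiv_eq_sum D T (fun w hw => by
      by_contra hwT
      exact hw (hnot w hwT).1)).symm
  have hdt : ∑ w ∈ T, max (-(w.ord t)) 0 * (w.deg : ℤ) ≤ n := by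
    have h1 := zeros_leK (fun w : Place K E => w.ord) ho (Place.dvr hE) (inv_ne_zero ht0) htr' T hR
    have h2 : ∑ w ∈ T, max (-(w.ord t)) 0 * (w.deg : ℤ) =
        ((∑ w ∈ T, (w.ord t⁻¹).toNat * w.deg : ℕ) : ℤ) := by
      push_cast
      refine Finset.sum_congr rfl fun w _ => ?_
      rw [(ho w).inv ht0, Int.ofNat_toNat]
    rw [h2]
    exact_mod_cast h1
  obtain ⟨y, hyW, hy0, hy⟩ := countK (fun w : Place K E => w.ord) ho (Place.dvr hE)
    (Place.finite_residue hE) T W
    (fun w => (C w : ℤ) + r * max (-(w.ord t)) 0)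
    (fun w => -(C w : ℤ) + w.ord h - D w)
    (fun w _ => by
      have := hle w
      linarith)
    (fun y hyW hy0 w _ => by
      have := hW y hyW hy0 w
      linarith)
    (by
      rw [hWr]
      have h1 : ((∑ w ∈ T, ((C w : ℤ) + r * max (-(w.ord t)) 0 +
          (-(C w : ℤ) + w.ord h - D w)).toNat * w.deg : ℕ) : ℤ) =
          r * ∑ w ∈ T, max (-(w.ord t)) 0 * (w.deg : ℤ) - degDiv K E D := by
        push_cast
        have h2 : ∀ w ∈ T, (((C w : ℤ) + r * max (-(w.ord t)) 0 +
            (-(C w : ℤ) + w.ord h - D w)).toNat : ℤ) * (w.deg : ℤ) =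
            r * (max (-(w.ord t)) 0 * (w.deg : ℤ)) + w.ord h * (w.deg : ℤ) -
              D w * (w.deg : ℤ) := by
          intro w _
          have h3 := hle w
          rw [Int.toNat_of_nonneg (by linarith)]
          ring
        rw [Finset.sum_congr rfl h2, Finset.sum_sub_distrib, Finset.sum_add_distrib, hdh, hdD,
          ← Finset.mul_sum]
        ring
      have h2 : ((∑ w ∈ T, ((C w : ℤ) + r * max (-(w.ord t)) 0 +
          (-(C w : ℤ) + w.ord h - D w)).toNat * w.deg : ℕ) : ℤ) ≤ r * n := by
        rw [h1]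
        have h3 : (r : ℤ) * ∑ w ∈ T, max (-(w.ord t)) 0 * (w.deg : ℤ) ≤ r * n :=
          mul_le_mul_of_nonneg_left hdt (by positivity)
        linarith
      have h3 : ∑ w ∈ T, ((C w : ℤ) + r * max (-(w.ord t)) 0 +
          (-(C w : ℤ) + w.ord h - D w)).toNat * w.deg ≤ r * n := by exact_mod_cast h2
      calc _ ≤ r * n := h3
        _ < n * (r + 1) := by nlinarith)
  refine ⟨y / h, div_ne_zero hy0 hh0, fun w => ?_⟩
  rw [Finsupp.ofSupportFinite_coe, (ho w).div hy0 hh0]
  by_cases hwT : w ∈ T
  · have h1 := hy w hwT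
    linarith
  · obtain ⟨h1, h2, h3, h4⟩ := hnot w hwT
    have h5 := hW y hyW hy0 w
    rw [h3, h4] at h5
    rw [h1, h2, h4]
    simpa using h5

end ZC
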